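import Pool.Agent.H.MP_8a52c3_lc.Features

/-!
# The number of other gates
-/

set_option autoImplicit false

open Finset

namespace Pool.Agent.H.MP_8a52c3_lc

namespace Circuit

variable {V : Type} {s : ℕ}

theorem isOther_iff (C : Circuit V s) (i : Fin s) :
    C.IsOther i ↔ (C.gate i).isOther = true := by
  cases hg : C.gate i <;> simp [IsOther, hg, Gate.isOther]

/-- the functions obtained by fixing the outputs of the other gates -/
def feat (C : Circuit V s) (r : Finset (Fin s) × Option (Σ _ : Fin s, ℕ)) : (V → Bool) → Bool :=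
  match r with
  | (S, none) => fun x => C.valFix (fun i => decide (i ∈ S)) x C.out
  | (S, some w) => fun x => C.inpFix (fun i => decide (i ∈ S)) x w.1 w.2

/-- the index set -/
def featSet (C : Circuit V s) : Finset (Finset (Fin s) × Option (Σ _ : Fin s, ℕ)) :=
  (univ.filter (fun i => (C.gate i).isOther = true)).powerset ×ˢ
    Finset.insertNone (univ.sigma (fun i => range (C.gate i).fan))

theorem card_featSet (C : Circuit V s) :
    C.featSet.card = 2 ^ C.numOther * (C.otherFan + 1) := by
  rw [featSet, Finset.card_product, Finset.card_powerset, Finset.card_insertNone,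
    Finset.card_sigma, numOther, otherFan]
  congr 2
  exact Finset.sum_congr rfl (fun i _ => Finset.card_range _)

theorem feat_mem (C : Circuit V s) : ∃ t L, MonoProg t L ∧ t ≤ 2 ^ C.numOther * C.size ∧
    ∀ r ∈ C.featSet, C.feat r ∈ L := by
  obtain ⟨L, h1, h2⟩ := C.all_prog
    (((univ.filter (fun i => (C.gate i).isOther = true)).powerset).toList.map
      (fun S i => decide (i ∈ S)))
  refine ⟨_, L, h1, ?_, ?_⟩
  · rw [List.length_map, Finset.length_toList, Finset.card_powerset, numOther]
  · rintro ⟨S, w⟩ hr
    rw [featSet, Finset.mem_product] at hr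
    have hS : (fun i => decide (i ∈ S)) ∈
        (((univ.filter (fun i => (C.gate i).isOther = true)).powerset).toList.map
          (fun S i => decide (i ∈ S))) :=
      List.mem_map.2 ⟨S, Finset.mem_toList.2 hr.1, rfl⟩
    cases w with
    | none => exact h2 _ hS C.out
    | some w =>
      have hw : w ∈ univ.sigma (fun i => range (C.gate i).fan) := by
        have := hr.2
        simpa using this
      obtain ⟨j, hj⟩ := C.inpFix_mem (fun i => decide (i ∈ S)) w.1 w.2
        (Finset.mem_range.1 (Finset.mem_sigma.1 hw).2)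
      have : C.feat (S, some w) = fun x => C.valFix (fun i => decide (i ∈ S)) x j := by
        funext x
        exact hj x
      rw [this]
      exact h2 _ hS j

theorem feat_det (C : Circuit V s) (x y : V → Bool)
    (h : ∀ r ∈ C.featSet, C.feat r x = C.feat r y) : C.eval x = C.eval y := by
  classical
  set S : Finset (Fin s) := univ.filter (fun i => (C.gate i).isOther = true ∧
    C.val x i = true) with hS
  have hSmem : S ∈ (univ.filter (fun i => (C.gate i).isOther = true)).powerset := by
    rw [Finset.mem_powerset]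
    intro i hi
    exact Finset.mem_filter.2 ⟨Finset.mem_univ _, (Finset.mem_filter.1 hi).2.1⟩
  have hc : ∀ j, C.IsOther j → decide (j ∈ S) = C.val x j := by
    intro j hj
    have hj' := (C.isOther_iff j).1 hj
    cases hv : C.val x j with
    | true =>
      rw [decide_eq_true_eq]
      exact Finset.mem_filter.2 ⟨Finset.mem_univ _, hj', hv⟩
    | false =>
      rw [decide_eq_false_iff_not]
      intro hmem
      have := (Finset.mem_filter.1 hmem).2.2
      rw [hv] at this
      exact Bool.false_ne_true this
  have key : ∀ n : ℕ, ∀ i : Fin s, i.val = n → ∀ r, C.inp x i r = C.inp y i r := by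
    intro n
    induction n using Nat.strong_induction_on with
    | _ n ih =>
      intro i hin r
      by_cases hr : r < (C.gate i).fan
      · have ex := C.inpFix_eq (C.lev i) (fun i => decide (i ∈ S)) x i r
          (fun j _ ho _ => hc j ho) (Nat.le_succ _)
        have ey := C.inpFix_eq (C.lev i) (fun i => decide (i ∈ S)) y i r (by
          intro j hj ho _
          rw [hc j ho]
          exact C.val_eq_of_inp j ho (ih j.val (by omega) j rfl)) (Nat.le_succ _)
        have e := h (S, some ⟨i, r⟩) (by
          rw [featSet, Finset.mem_product]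
          refine ⟨hSmem, ?_⟩
          simp [hr])
        rw [← ex, ← ey]
        exact e
      · rw [C.inp_of_fan_le x i r (by omega), C.inp_of_fan_le y i r (by omega)]
  have ex := C.valFix_eq (C.lev C.out) (fun i => decide (i ∈ S)) x C.out
    (fun j _ ho _ => hc j ho) le_rfl
  have ey := C.valFix_eq (C.lev C.out) (fun i => decide (i ∈ S)) y C.out (by
    intro j _ ho _
    rw [hc j ho]
    exact C.val_eq_of_inp j ho (key j.val j rfl)) le_rfl
  have e := h (S, none) (by
    rw [featSet, Finset.mem_product]
    refine ⟨hSmem, ?_⟩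
    simp)
  change C.val x C.out = C.val y C.out
  rw [← ex, ← ey]
  exact e

end Circuit

theorem others_bound {V : Type} {s : ℕ} (C : Circuit V s) {K k b q l : ℕ} (hl : 64 ≤ l)
    (hb : l ^ 7 ≤ b) (hq : 4 * l ^ 2 ≤ q) (role : V → Role K k b)
    (hrole : ∀ v j x y, role v = .edge j x y → x ≠ y)
    (hsize : K * (C.size + 1) ≤ l ^ l)
    (hZ : ∀ j (u : Fin K → Fin k × Fin b → Fin q), C.eval (chainIn role j u) = false)
    (hY : ∀ j (u : Fin K → Fin k × Fin b → Fin q) a, C.eval (branchIn role j u a) = true) :
    K ≤ 2 * (2 ^ C.numOther * (C.otherFan + 1)) := by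
  by_contra hcon
  push Not at hcon
  have hcard := C.card_featSet
  obtain ⟨t, L, hL, ht, hmem⟩ := C.feat_mem
  have h2 : 2 ^ C.numOther ≤ K := by
    have : 2 ^ C.numOther * 1 ≤ 2 ^ C.numOther * (C.otherFan + 1) :=
      Nat.mul_le_mul_left _ (by omega)
    omega
  have h3 : 2 ^ C.numOther * C.size ≤ K * C.size := Nat.mul_le_mul_right _ h2
  have h4 : t + C.featSet.card ≤ l ^ l := by
    rw [hcard]
    have e : K * (C.size + 1) = K * C.size + K := by ring
    omega
  have := roles_features C.featSet C.feat hL hmem C.eval C.feat_det role hrole hl hb hq h4 hZ hY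
  rw [hcard] at this
  omega

theorem tuples_others {K v r l s : ℕ} (hl : 64 ≤ l) (hv : r * l ^ 7 ≤ v)
    (C : Circuit (Fin K × Pairs v) s) (hsize : K * (C.size + 1) ≤ l ^ l)
    (hpos : ∀ x : Fin K × Pairs v → Bool, (∃ j, HasClique r (fun p => x (j, p))) →
      C.eval x = true)
    (hneg : ∀ x : Fin K × Pairs v → Bool, (∀ j, IsColorable (4 * l ^ 2) (fun p => x (j, p))) →
      C.eval x = false) :
    K ≤ 2 * (2 ^ C.numOther * (C.otherFan + 1)) := by
  apply others_bound C hl le_rfl (le_refl (4 * l ^ 2)) tupleRole
    (fun w j x y h => tupleRole_ne w j x y h) hsize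
  · intro j u
    exact hneg _ (fun i => chain_colorable (by positivity) j u i)
  · intro j u a
    exact hpos _ ⟨j, branch_clique hv j u a⟩

/-- logarithmic form -/
theorem log_form' {K v : ℕ} (hK : 1 ≤ K) (hv : 2 ≤ v) {B : ℝ} (h : (K : ℝ) ≤ 2 * B) :
    Real.logb 2 (Fintype.card (Fin K × Pairs v)) - 2 * Real.logb 2 v ≤ Real.logb 2 B := by
  have hvR : (2 : ℝ) ≤ v := by exact_mod_cast hv
  have hKR : (1 : ℝ) ≤ K := by exact_mod_cast hK
  have h1 : (Fintype.card (Fin K × Pairs v) : ℝ) = K * (v * (v - 1) / 2) := by
    rw [Fintype.card_prod, Fintype.card_fin, card_pairs, Nat.cast_mul, Nat.cast_choose_two]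
  have hpos : (0 : ℝ) < K * (v * (v - 1) / 2) := by
    have : (0 : ℝ) < v - 1 := by linarith
    positivity
  have h2 : Real.logb 2 (Fintype.card (Fin K × Pairs v)) - 2 * Real.logb 2 v =
      Real.logb 2 (K * (v * (v - 1) / 2) / v ^ 2) := by
    rw [h1, Real.logb_div hpos.ne' (by positivity), Real.logb_pow]
    norm_num
  rw [h2]
  apply Real.logb_le_logb_of_le (by norm_num) (by positivity)
  rw [div_le_iff₀ (by positivity)]
  have h3 : (0 : ℝ) ≤ K * v := by positivity
  have h4 : (K : ℝ) * v ^ 2 ≤ 2 * B * v ^ 2 := mul_le_mul_of_nonneg_right h (by positivity)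
  nlinarith [sq_nonneg (v : ℝ)]

end Pool.Agent.H.MP_8a52c3_lc
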