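import Mathlib

/-!
# Tuples of graphs: the definitions used in the statements
-/

set_option autoImplicit false

namespace Pool.Agent.H.MP_8a52c3_lc

/-- the pairs of vertices `i < j` of a graph with vertex set `Fin v` -/
abbrev Pairs (v : ℕ) : Type := {p : Fin v × Fin v // p.1 < p.2}

/-- the graph with edge indicator `G` contains a clique with `r` vertices -/
def HasClique {v : ℕ} (r : ℕ) (G : Pairs v → Bool) : Prop :=
  ∃ c : Finset (Fin v), c.card = r ∧ ∀ p : Pairs v, p.1.1 ∈ c → p.1.2 ∈ c → G p = true

/-- the graph with edge indicator `G` is properly colourable with `q` colours -/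
def IsColorable {v : ℕ} (q : ℕ) (G : Pairs v → Bool) : Prop :=
  ∃ f : Fin v → Fin q, ∀ p : Pairs v, G p = true → f p.1.1 ≠ f p.1.2

end Pool.Agent.H.MP_8a52c3_lc
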