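import Pool.Agent.H.MP_8a52c3_lc.Roles
import Pool.Agent.H.MP_8a52c3_lc.Graphs

/-!
# Tuples of graphs
-/

set_option autoImplicit false

open Finset

namespace Pool.Agent.H.MP_8a52c3_lc

section

variable {K v r b q : ℕ}

/-- the vertex `(i, j)` of the small graph behind a vertex of the big graph -/
def dec (x : Fin v) (h : x.val < r * b) : Fin r × Fin b := finProdFinEquiv.symm ⟨x.val, h⟩

/-- the vertex of the big graph -/
def enc (hv : r * b ≤ v) (z : Fin r × Fin b) : Fin v :=
  ⟨(finProdFinEquiv z).val, lt_of_lt_of_le (finProdFinEquiv z).isLt hv⟩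

theorem enc_lt (hv : r * b ≤ v) (z : Fin r × Fin b) : (enc hv z).val < r * b :=
  (finProdFinEquiv z).isLt

theorem dec_enc (hv : r * b ≤ v) (z : Fin r × Fin b) (h : (enc hv z).val < r * b) :
    dec (enc hv z) h = z := by
  unfold dec enc
  exact finProdFinEquiv.symm_apply_apply z

theorem dec_inj {x y : Fin v} (hx : x.val < r * b) (hy : y.val < r * b)
    (h : dec (r := r) (b := b) x hx = dec y hy) : x = y := by
  unfold dec at h
  have := finProdFinEquiv.symm.injective h
  exact Fin.ext (Fin.mk.inj this)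

theorem enc_inj (hv : r * b ≤ v) : Function.Injective (enc (r := r) (b := b) hv) := by
  intro z z' h
  unfold enc at h
  have h1 := Fin.mk.inj h
  exact finProdFinEquiv.injective (Fin.ext h1)

/-- the roles of the variables -/
def tupleRole (w : Fin K × Pairs v) : Role K r b :=
  if h : w.2.1.1.val < r * b ∧ w.2.1.2.val < r * b then
    .edge w.1 (dec w.2.1.1 h.1) (dec w.2.1.2 h.2) else .const false

theorem tupleRole_ne (w : Fin K × Pairs v) (j : Fin K) (x y : Fin r × Fin b)
    (h : tupleRole w = .edge j x y) : x ≠ y := by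
  unfold tupleRole at h
  split_ifs at h with h1
  rw [Role.edge.injEq] at h
  obtain ⟨-, rfl, rfl⟩ := h
  intro heq
  have := dec_inj h1.1 h1.2 heq
  exact absurd w.2.2 (by rw [this]; exact lt_irrefl _)

theorem branch_clique (hv : r * b ≤ v) (j : Fin K) (u : Fin K → Fin r × Fin b → Fin q)
    (a : Fin r → Fin b) :
    HasClique r (fun p : Pairs v => branchIn tupleRole j u a (j, p)) := by
  classical
  refine ⟨univ.image (fun i => enc hv (i, a i)), ?_, ?_⟩
  · rw [Finset.card_image_of_injective, Finset.card_univ, Fintype.card_fin]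
    intro i i' h
    exact (Prod.mk.inj (enc_inj hv h)).1
  · intro p h1 h2
    obtain ⟨i1, -, e1⟩ := Finset.mem_image.1 h1
    obtain ⟨i2, -, e2⟩ := Finset.mem_image.1 h2
    have h3 : p.1.1.val < r * b := by rw [← e1]; exact enc_lt hv _
    have h4 : p.1.2.val < r * b := by rw [← e2]; exact enc_lt hv _
    have h5 : dec p.1.1 h3 = (i1, a i1) := by
      have := dec_enc hv (i1, a i1) (enc_lt hv _)
      rw [← this]
      congr 1
      exact e1.symm
    have h6 : dec p.1.2 h4 = (i2, a i2) := by
      have := dec_enc hv (i2, a i2) (enc_lt hv _)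
      rw [← this]
      congr 1
      exact e2.symm
    unfold branchIn fill tupleRole
    simp only
    rw [dif_pos ⟨h3, h4⟩]
    simp only
    rw [if_neg (lt_irrefl _), h5, h6]
    simp

theorem chain_colorable (hq : 0 < q) (j : ℕ) (u : Fin K → Fin r × Fin b → Fin q) (i : Fin K) :
    IsColorable q (fun p : Pairs v => chainIn tupleRole j u (i, p)) := by
  refine ⟨fun x => if h : x.val < r * b then u i (dec x h) else ⟨0, hq⟩, ?_⟩
  intro p hp
  unfold chainIn fill tupleRole at hp
  simp only at hp
  by_cases h : p.1.1.val < r * b ∧ p.1.2.val < r * b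
  · rw [dif_pos h] at hp
    simp only at hp
    simp only
    rw [dif_pos h.1, dif_pos h.2]
    by_cases h1 : i.val < j
    · rw [if_pos h1] at hp
      exact of_decide_eq_true hp
    · rw [if_neg h1] at hp
      exact absurd hp Bool.false_ne_true
  · rw [dif_neg h] at hp
    exact absurd hp Bool.false_ne_true

end

theorem tuples_bound {K v r l s : ℕ} (hl : 64 ≤ l) (hv : r * l ^ 7 ≤ v)
    (C : Circuit (Fin K × Pairs v) s) (hsize : C.size + K < l ^ l)
    (hpos : ∀ x : Fin K × Pairs v → Bool, (∃ j, HasClique r (fun p => x (j, p))) →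
      C.eval x = true)
    (hneg : ∀ x : Fin K × Pairs v → Bool, (∀ j, IsColorable (4 * l ^ 2) (fun p => x (j, p))) →
      C.eval x = false) :
    (K : ℝ) / 2 + 1 ≤ 2 ^ C.otherFan ∧
      (K : ℝ) / 2 + 1 ≤ (1 + (C.otherFan : ℝ) / C.otherDepth) ^ C.otherDepth := by
  apply roles_main C hl le_rfl (le_refl (4 * l ^ 2)) tupleRole
    (fun w j x y h => tupleRole_ne w j x y h) (by omega)
  · intro j u
    exact hneg _ (fun i => chain_colorable (by positivity) j u i)
  · intro j u a
    exact hpos _ ⟨j, branch_clique hv j u a⟩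

/-- the number of variables -/
theorem card_pairs (v : ℕ) : Fintype.card (Pairs v) = v.choose 2 := by
  have h1 : Fintype.card (Pairs v) = (univ.filter (fun p : Fin v × Fin v => p.1 < p.2)).card :=
    Fintype.card_subtype _
  rw [h1, Finset.card_filter, Fintype.sum_prod_type_right]
  have h2 : ∀ y : Fin v, ∑ x : Fin v, (if x < y then 1 else 0) = y.val := by
    intro y
    rw [← Finset.card_filter]
    have : (univ.filter (fun x : Fin v => x < y)) = Finset.Iio y := by
      ext x; simp
    rw [this, Fin.card_Iio]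
  rw [Finset.sum_congr rfl (fun y _ => h2 y), Fin.sum_univ_eq_sum_range (fun i => i) v,
    Finset.sum_range_id, Nat.choose_two_right]

/-- logarithmic form -/
theorem log_form {K v : ℕ} (hK : 1 ≤ K) (hv : 2 ≤ v) {B : ℝ} (h : (K : ℝ) / 2 + 1 ≤ B) :
    Real.logb 2 (Fintype.card (Fin K × Pairs v)) - 2 * Real.logb 2 v ≤ Real.logb 2 B := by
  have hvR : (2 : ℝ) ≤ v := by exact_mod_cast hv
  have hKR : (1 : ℝ) ≤ K := by exact_mod_cast hK
  have h1 : (Fintype.card (Fin K × Pairs v) : ℝ) = K * (v * (v - 1) / 2) := by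
    rw [Fintype.card_prod, Fintype.card_fin, card_pairs, Nat.cast_mul, Nat.cast_choose_two]
  have hpos : (0 : ℝ) < K * (v * (v - 1) / 2) := by
    have : (0 : ℝ) < v - 1 := by linarith
    positivity
  have h2 : Real.logb 2 (Fintype.card (Fin K × Pairs v)) - 2 * Real.logb 2 v =
      Real.logb 2 (K * (v * (v - 1) / 2) / v ^ 2) := by
    rw [h1, Real.logb_div hpos.ne' (by positivity), Real.logb_pow]
    norm_num
  rw [h2]
  apply Real.logb_le_logb_of_le (by norm_num) (by positivity)
  refine le_trans ?_ h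
  rw [div_le_iff₀ (by positivity)]
  have h3 : (0 : ℝ) ≤ K * v := by positivity
  nlinarith [sq_nonneg (v : ℝ)]

end Pool.Agent.H.MP_8a52c3_lc
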