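import Mathlib

/-!
# Monotone straight line programs
-/

set_option autoImplicit false

namespace Pool.Agent.H.MP_8a52c3_lc

/-- `MonoProg t L`: the functions in the list `L` are computed by a monotone straight line program
with `t` AND and OR gates. -/
inductive MonoProg {V : Type} : ℕ → List ((V → Bool) → Bool) → Prop
  | nil : MonoProg 0 []
  | var {t : ℕ} {L : List ((V → Bool) → Bool)} (h : MonoProg t L) (v : V) :
      MonoProg t ((fun x => x v) :: L)
  | const {t : ℕ} {L : List ((V → Bool) → Bool)} (h : MonoProg t L) (b : Bool) :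
      MonoProg t ((fun _ => b) :: L)
  | and {t : ℕ} {L : List ((V → Bool) → Bool)} (h : MonoProg t L) {f g : (V → Bool) → Bool}
      (hf : f ∈ L) (hg : g ∈ L) : MonoProg (t + 1) ((fun x => f x && g x) :: L)
  | or {t : ℕ} {L : List ((V → Bool) → Bool)} (h : MonoProg t L) {f g : (V → Bool) → Bool}
      (hf : f ∈ L) (hg : g ∈ L) : MonoProg (t + 1) ((fun x => f x || g x) :: L)

namespace MonoProg

variable {V W : Type}

theorem monotone {t : ℕ} {L : List ((V → Bool) → Bool)} (h : MonoProg t L) :
    ∀ f ∈ L, Monotone f := by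
  induction h with
  | nil => intro f hf; exact absurd hf List.not_mem_nil
  | var h v ih =>
    intro f hf
    rcases List.mem_cons.1 hf with rfl | hf
    · intro x y hxy; exact hxy v
    · exact ih f hf
  | const h b ih =>
    intro f hf
    rcases List.mem_cons.1 hf with rfl | hf
    · intro x y _; exact le_rfl
    · exact ih f hf
  | and h hf' hg' ih =>
    intro f hf
    rcases List.mem_cons.1 hf with rfl | hf
    · intro x y hxy
      have h1 := ih _ hf' hxy
      have h2 := ih _ hg' hxy
      rw [Bool.le_iff_imp] at h1 h2 ⊢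
      intro h3
      rw [Bool.and_eq_true] at h3 ⊢
      exact ⟨h1 h3.1, h2 h3.2⟩
    · exact ih f hf
  | or h hf' hg' ih =>
    intro f hf
    rcases List.mem_cons.1 hf with rfl | hf
    · intro x y hxy
      have h1 := ih _ hf' hxy
      have h2 := ih _ hg' hxy
      rw [Bool.le_iff_imp] at h1 h2 ⊢
      intro h3
      rw [Bool.or_eq_true] at h3 ⊢
      exact h3.imp h1 h2
    · exact ih f hf

/-- substitution of variables and constants for variables -/
theorem subst {t : ℕ} {L : List ((V → Bool) → Bool)} (h : MonoProg t L)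
    (θ : V → (W → Bool) → Bool)
    (hθ : ∀ v, (∃ w, θ v = fun x => x w) ∨ ∃ b, θ v = fun _ => b) :
    ∃ L' : List ((W → Bool) → Bool), MonoProg t L' ∧
      ∀ f ∈ L, (fun x => f (fun v => θ v x)) ∈ L' := by
  induction h with
  | nil => exact ⟨[], .nil, fun f hf => absurd hf List.not_mem_nil⟩
  | var h v ih =>
    obtain ⟨L', h1, h2⟩ := ih
    rcases hθ v with ⟨w, hw⟩ | ⟨b, hb⟩
    · refine ⟨_, h1.var w, ?_⟩
      intro f hf
      rcases List.mem_cons.1 hf with rfl | hf
      · rw [List.mem_cons]; left
        funext x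
        exact congrFun hw x
      · exact List.mem_cons_of_mem _ (h2 f hf)
    · refine ⟨_, h1.const b, ?_⟩
      intro f hf
      rcases List.mem_cons.1 hf with rfl | hf
      · rw [List.mem_cons]; left
        funext x
        exact congrFun hb x
      · exact List.mem_cons_of_mem _ (h2 f hf)
  | const h b ih =>
    obtain ⟨L', h1, h2⟩ := ih
    refine ⟨_, h1.const b, ?_⟩
    intro f hf
    rcases List.mem_cons.1 hf with rfl | hf
    · exact List.mem_cons_self
    · exact List.mem_cons_of_mem _ (h2 f hf)
  | and h hf' hg' ih =>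
    obtain ⟨L', h1, h2⟩ := ih
    refine ⟨_, h1.and (h2 _ hf') (h2 _ hg'), ?_⟩
    intro f hf
    rcases List.mem_cons.1 hf with rfl | hf
    · exact List.mem_cons_self
    · exact List.mem_cons_of_mem _ (h2 f hf)
  | or h hf' hg' ih =>
    obtain ⟨L', h1, h2⟩ := ih
    refine ⟨_, h1.or (h2 _ hf') (h2 _ hg'), ?_⟩
    intro f hf
    rcases List.mem_cons.1 hf with rfl | hf
    · exact List.mem_cons_self
    · exact List.mem_cons_of_mem _ (h2 f hf)

/-- disjunction of finitely many functions of a program -/
theorem any {t : ℕ} {L : List ((V → Bool) → Bool)} (h : MonoProg t L)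
    (M : List ((V → Bool) → Bool)) (hM : ∀ f ∈ M, f ∈ L) :
    ∃ L', MonoProg (t + M.length) L' ∧ (∀ f ∈ L, f ∈ L') ∧
      (fun x => M.any (fun f => f x)) ∈ L' := by
  induction M with
  | nil =>
    refine ⟨_, h.const false, fun f hf => List.mem_cons_of_mem _ hf, ?_⟩
    simp
  | cons g M ih =>
    obtain ⟨L', h1, h2, h3⟩ := ih (fun f hf => hM f (List.mem_cons_of_mem _ hf))
    refine ⟨_, h1.or (h2 _ (hM g List.mem_cons_self)) h3,
      fun f hf => List.mem_cons_of_mem _ (h2 f hf), ?_⟩
    rw [List.mem_cons]; left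
    funext x
    rw [List.any_cons]

end MonoProg

end Pool.Agent.H.MP_8a52c3_lc
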