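import Pool.Agent.H.MP_8a52c3_lc.Circ
import Pool.Agent.H.MP_8a52c3_lc.Prog

/-!
# Chains of inputs and circuits with few other gates
-/

set_option autoImplicit false

open Finset

namespace Pool.Agent.H.MP_8a52c3_lc

namespace Circuit

variable {V : Type} {s : ℕ}

/-- the value at gate `i` when the outputs of the other gates are replaced by `c` -/
def valFix (C : Circuit V s) (c : Fin s → Bool) (x : V → Bool) (i : Fin s) : Bool :=
  match C.gate i with
  | .var v => x v
  | .const b => b
  | .and a b => C.valFix c x ⟨a.val, a.isLt.trans i.isLt⟩ &&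
      C.valFix c x ⟨b.val, b.isLt.trans i.isLt⟩
  | .or a b => C.valFix c x ⟨a.val, a.isLt.trans i.isLt⟩ ||
      C.valFix c x ⟨b.val, b.isLt.trans i.isLt⟩
  | .other _ _ _ => c i
termination_by i.val
decreasing_by
  all_goals first | exact a.isLt | exact b.isLt

theorem valFix_prog_aux (C : Circuit V s) (c : Fin s → Bool) (n : ℕ) (hn : n ≤ s) :
    ∃ L, MonoProg
      (univ.filter (fun i : Fin s => i.val < n ∧ (C.gate i).isBin = true)).card L ∧
      ∀ i : Fin s, i.val < n → (fun x => C.valFix c x i) ∈ L := by
  induction n with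
  | zero =>
    refine ⟨[], ?_, fun i hi => absurd hi (Nat.not_lt_zero _)⟩
    have : (univ.filter (fun i : Fin s => i.val < 0 ∧ (C.gate i).isBin = true)) = ∅ := by
      ext i
      simp
    rw [this]
    exact .nil
  | succ n ih =>
    obtain ⟨L, h1, h2⟩ := ih (by omega)
    set i₀ : Fin s := ⟨n, by omega⟩ with hi₀
    have hcase : ∀ i : Fin s, i.val < n + 1 → i.val < n ∨ i = i₀ := by
      intro i hi
      by_cases h : i.val < n
      · exact Or.inl h
      · exact Or.inr (Fin.ext (by rw [hi₀]; simp only; omega))
    have hsame : (C.gate i₀).isBin = false →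
        (univ.filter (fun i : Fin s => i.val < n + 1 ∧ (C.gate i).isBin = true)) =
        (univ.filter (fun i : Fin s => i.val < n ∧ (C.gate i).isBin = true)) := by
      intro hb
      ext i
      simp only [Finset.mem_filter, Finset.mem_univ, true_and]
      constructor
      · rintro ⟨h3, h4⟩
        rcases hcase i h3 with h5 | h5
        · exact ⟨h5, h4⟩
        · rw [h5, hb] at h4
          exact absurd h4 Bool.false_ne_true
      · rintro ⟨h3, h4⟩
        exact ⟨by omega, h4⟩
    have hmore : (C.gate i₀).isBin = true →
        (univ.filter (fun i : Fin s => i.val < n + 1 ∧ (C.gate i).isBin = true)).card =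
        (univ.filter (fun i : Fin s => i.val < n ∧ (C.gate i).isBin = true)).card + 1 := by
      intro hb
      have : (univ.filter (fun i : Fin s => i.val < n + 1 ∧ (C.gate i).isBin = true)) =
          insert i₀ (univ.filter (fun i : Fin s => i.val < n ∧ (C.gate i).isBin = true)) := by
        ext i
        simp only [Finset.mem_filter, Finset.mem_univ, true_and, Finset.mem_insert]
        constructor
        · rintro ⟨h3, h4⟩
          rcases hcase i h3 with h5 | h5
          · exact Or.inr ⟨h5, h4⟩
          · exact Or.inl h5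
        · rintro (h3 | ⟨h3, h4⟩)
          · rw [h3]
            exact ⟨by rw [hi₀]; simp, hb⟩
          · exact ⟨by omega, h4⟩
      rw [this, Finset.card_insert_of_notMem]
      rw [Finset.mem_filter]
      rintro ⟨-, h3, -⟩
      rw [hi₀] at h3
      exact absurd h3 (lt_irrefl _)
    cases hg : C.gate i₀ with
    | var v =>
      rw [hsame (by rw [hg]; rfl)]
      refine ⟨_, h1.var v, fun i hi => ?_⟩
      rcases hcase i hi with h5 | h5
      · exact List.mem_cons_of_mem _ (h2 i h5)
      · rw [List.mem_cons]; left
        funext x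
        rw [h5, valFix, hg]
    | const v =>
      rw [hsame (by rw [hg]; rfl)]
      refine ⟨_, h1.const v, fun i hi => ?_⟩
      rcases hcase i hi with h5 | h5
      · exact List.mem_cons_of_mem _ (h2 i h5)
      · rw [List.mem_cons]; left
        funext x
        rw [h5, valFix, hg]
    | other m a g =>
      rw [hsame (by rw [hg]; rfl)]
      refine ⟨_, h1.const (c i₀), fun i hi => ?_⟩
      rcases hcase i hi with h5 | h5
      · exact List.mem_cons_of_mem _ (h2 i h5)
      · rw [List.mem_cons]; left
        funext x
        rw [h5, valFix, hg]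
    | and a b =>
      rw [hmore (by rw [hg]; rfl)]
      refine ⟨_, h1.and (h2 ⟨a.val, a.isLt.trans i₀.isLt⟩ a.isLt)
        (h2 ⟨b.val, b.isLt.trans i₀.isLt⟩ b.isLt), fun i hi => ?_⟩
      rcases hcase i hi with h5 | h5
      · exact List.mem_cons_of_mem _ (h2 i h5)
      · rw [List.mem_cons]; left
        funext x
        rw [h5, valFix, hg]
    | or a b =>
      rw [hmore (by rw [hg]; rfl)]
      refine ⟨_, h1.or (h2 ⟨a.val, a.isLt.trans i₀.isLt⟩ a.isLt)
        (h2 ⟨b.val, b.isLt.trans i₀.isLt⟩ b.isLt), fun i hi => ?_⟩
      rcases hcase i hi with h5 | h5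
      · exact List.mem_cons_of_mem _ (h2 i h5)
      · rw [List.mem_cons]; left
        funext x
        rw [h5, valFix, hg]

/-- all gates, with the other gates replaced by constants -/
theorem valFix_prog (C : Circuit V s) (c : Fin s → Bool) :
    ∃ L, MonoProg C.size L ∧ ∀ i : Fin s, (fun x => C.valFix c x i) ∈ L := by
  obtain ⟨L, h1, h2⟩ := C.valFix_prog_aux c s le_rfl
  refine ⟨L, ?_, fun i => h2 i i.isLt⟩
  have : (univ.filter (fun i : Fin s => i.val < s ∧ (C.gate i).isBin = true)) =
      (univ.filter (fun i : Fin s => (C.gate i).isBin = true)) := by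
    ext i
    simp
  rw [this] at h1
  exact h1

theorem valFix_mono (C : Circuit V s) (c : Fin s → Bool) (i : Fin s) {x y : V → Bool}
    (hxy : x ≤ y) (h : C.valFix c x i = true) : C.valFix c y i = true := by
  obtain ⟨L, h1, h2⟩ := C.valFix_prog c
  have := h1.monotone _ (h2 i) hxy
  exact Bool.le_iff_imp.1 this h

/-- is gate `i` an other gate? -/
def IsOther (C : Circuit V s) (i : Fin s) : Prop :=
  match C.gate i with
  | .other _ _ _ => True
  | _ => False

theorem valFix_eq (C : Circuit V s) (k : ℕ) (c : Fin s → Bool) (x : V → Bool) (i : Fin s)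
    (hc : ∀ j : Fin s, j.val ≤ i.val → C.IsOther j → C.lev j ≤ k → c j = C.val x j)
    (hk : C.lev i ≤ k) : C.valFix c x i = C.val x i := by
  obtain ⟨n, hn⟩ : ∃ n, n = i.val := ⟨_, rfl⟩
  induction n using Nat.strong_induction_on generalizing i with
  | _ n ih =>
    have hk0 := hk
    rw [lev] at hk
    cases hg : C.gate i with
    | var v => rw [valFix, val, hg]
    | const b => rw [valFix, val, hg]
    | and a b =>
      rw [hg] at hk
      simp only at hk
      rw [valFix, val, hg]
      simp only
      rw [ih a.val (by rw [hn]; exact a.isLt) ⟨a.val, a.isLt.trans i.isLt⟩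
          (fun j hj => hc j (hj.trans a.isLt.le)) (by omega) rfl,
        ih b.val (by rw [hn]; exact b.isLt) ⟨b.val, b.isLt.trans i.isLt⟩
          (fun j hj => hc j (hj.trans b.isLt.le)) (by omega) rfl]
    | or a b =>
      rw [hg] at hk
      simp only at hk
      rw [valFix, val, hg]
      simp only
      rw [ih a.val (by rw [hn]; exact a.isLt) ⟨a.val, a.isLt.trans i.isLt⟩
          (fun j hj => hc j (hj.trans a.isLt.le)) (by omega) rfl,
        ih b.val (by rw [hn]; exact b.isLt) ⟨b.val, b.isLt.trans i.isLt⟩
          (fun j hj => hc j (hj.trans b.isLt.le)) (by omega) rfl]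
    | other m a g =>
      have h1 : C.valFix c x i = c i := by rw [valFix, hg]
      rw [h1]
      exact hc i le_rfl (by rw [IsOther, hg]; trivial) hk0

/-- the value on the input wire `r` of the other gate `i` -/
def inp (C : Circuit V s) (x : V → Bool) (i : Fin s) (r : ℕ) : Bool :=
  match C.gate i with
  | .other m a _ => if h : r < m then
      C.val x ⟨(a ⟨r, h⟩).val, (a ⟨r, h⟩).isLt.trans i.isLt⟩ else false
  | _ => false

/-- the value on the input wire `r` of the other gate `i`, when the outputs of the other gates are
replaced by `c` -/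
def inpFix (C : Circuit V s) (c : Fin s → Bool) (x : V → Bool) (i : Fin s) (r : ℕ) : Bool :=
  match C.gate i with
  | .other m a _ => if h : r < m then
      C.valFix c x ⟨(a ⟨r, h⟩).val, (a ⟨r, h⟩).isLt.trans i.isLt⟩ else false
  | _ => false

theorem inp_of_fan_le (C : Circuit V s) (x : V → Bool) (i : Fin s) (r : ℕ)
    (h : (C.gate i).fan ≤ r) : C.inp x i r = false := by
  cases hg : C.gate i with
  | var v => rw [inp, hg]
  | const b => rw [inp, hg]
  | and a b => rw [inp, hg]
  | or a b => rw [inp, hg]
  | other m a g =>
    rw [inp, hg]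
    rw [hg] at h
    simp only [Gate.fan] at h
    simp only
    rw [dif_neg (by omega)]

theorem inpFix_mem (C : Circuit V s) (c : Fin s → Bool) (i : Fin s) (r : ℕ)
    (hr : r < (C.gate i).fan) : ∃ j : Fin s, ∀ x, C.inpFix c x i r = C.valFix c x j := by
  cases hg : C.gate i with
  | var v => rw [hg] at hr; exact absurd hr (Nat.not_lt_zero _)
  | const b => rw [hg] at hr; exact absurd hr (Nat.not_lt_zero _)
  | and a b => rw [hg] at hr; exact absurd hr (Nat.not_lt_zero _)
  | or a b => rw [hg] at hr; exact absurd hr (Nat.not_lt_zero _)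
  | other m a g =>
    rw [hg] at hr
    have hr' : r < m := hr
    refine ⟨⟨(a ⟨r, hr'⟩).val, (a ⟨r, hr'⟩).isLt.trans i.isLt⟩, fun x => ?_⟩
    rw [inpFix, hg]
    simp only
    rw [dif_pos hr']

theorem inpFix_eq (C : Circuit V s) (k : ℕ) (c : Fin s → Bool) (x : V → Bool) (i : Fin s) (r : ℕ)
    (hc : ∀ j : Fin s, j.val < i.val → C.IsOther j → C.lev j ≤ k → c j = C.val x j)
    (hk : C.lev i ≤ k + 1) : C.inpFix c x i r = C.inp x i r := by
  cases hg : C.gate i with
  | var v => rw [inpFix, inp, hg]
  | const b => rw [inpFix, inp, hg]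
  | and a b => rw [inpFix, inp, hg]
  | or a b => rw [inpFix, inp, hg]
  | other m a g =>
    rw [inpFix, inp, hg]
    simp only
    by_cases hr : r < m
    · rw [dif_pos hr, dif_pos hr]
      apply C.valFix_eq k
      · intro j hj
        exact hc j (lt_of_le_of_lt hj (a ⟨r, hr⟩).isLt)
      · rw [lev, hg] at hk
        simp only at hk
        have h1 : C.lev ⟨(a ⟨r, hr⟩).val, (a ⟨r, hr⟩).isLt.trans i.isLt⟩ ≤
            Finset.univ.sup fun r => C.lev ⟨(a r).val, (a r).isLt.trans i.isLt⟩ :=
          Finset.le_sup (f := fun r => C.lev ⟨(a r).val, (a r).isLt.trans i.isLt⟩)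
            (Finset.mem_univ (⟨r, hr⟩ : Fin m))
        omega
    · rw [dif_neg hr, dif_neg hr]

/-- the output of an other gate is determined by its input wires -/
theorem val_eq_of_inp (C : Circuit V s) {x y : V → Bool} (i : Fin s) (hi : C.IsOther i)
    (h : ∀ r, C.inp x i r = C.inp y i r) : C.val x i = C.val y i := by
  cases hg : C.gate i with
  | var v => rw [IsOther, hg] at hi; exact absurd hi not_false
  | const b => rw [IsOther, hg] at hi; exact absurd hi not_false
  | and a b => rw [IsOther, hg] at hi; exact absurd hi not_false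
  | or a b => rw [IsOther, hg] at hi; exact absurd hi not_false
  | other m a g =>
    rw [val, val, hg]
    simp only
    congr 1
    funext r
    have h1 := h r.val
    rw [inp, inp, hg] at h1
    simp only at h1
    rw [dif_pos r.isLt, dif_pos r.isLt] at h1
    exact h1

/-- all input wires of other gates of level at most `k` have the same value on `x` and on `y` -/
def Agree (C : Circuit V s) (k : ℕ) (x y : V → Bool) : Prop :=
  ∀ (i : Fin s) (r : ℕ), C.lev i ≤ k → C.inp x i r = C.inp y i r

theorem Agree.val_eq {C : Circuit V s} {k : ℕ} {x y : V → Bool} (h : C.Agree k x y) (i : Fin s)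
    (hi : C.IsOther i) (hk : C.lev i ≤ k) : C.val x i = C.val y i :=
  C.val_eq_of_inp i hi (fun r => h i r hk)

/-- if the wires of level at most `k` agree, the wires of level `k + 1` are monotone -/
theorem mono_of_agree (C : Circuit V s) (k : ℕ) {x y : V → Bool} (hxy : x ≤ y)
    (h : C.Agree k x y) (i : Fin s) (r : ℕ) (hi : C.lev i ≤ k + 1) :
    C.inp x i r = true → C.inp y i r = true := by
  intro hx
  have hr : r < (C.gate i).fan := by
    by_contra hcon
    rw [C.inp_of_fan_le x i r (by omega)] at hx
    exact absurd hx Bool.false_ne_true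
  have ex := C.inpFix_eq k (fun i => C.val x i) x i r (fun _ _ _ _ => rfl) hi
  have ey := C.inpFix_eq k (fun i => C.val x i) y i r
    (fun j _ hj hk => h.val_eq j hj hk) hi
  obtain ⟨j, hj⟩ := C.inpFix_mem (fun i => C.val x i) i r hr
  rw [← ey, hj]
  rw [← ex, hj] at hx
  exact C.valFix_mono _ j hxy hx

/-- the input wires of the other gates of level exactly `j` -/
def wires (C : Circuit V s) (j : ℕ) : Finset (Σ _ : Fin s, ℕ) :=
  (univ.filter (fun i => C.lev i = j)).sigma (fun i => range (C.gate i).fan)

/-- the number of those wires that carry `true` -/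
def ons (C : Circuit V s) (j : ℕ) (x : V → Bool) : ℕ :=
  ((C.wires j).filter (fun w => C.inp x w.1 w.2 = true)).card

theorem ons_le (C : Circuit V s) (j : ℕ) (x : V → Bool) : C.ons j x ≤ (C.wires j).card :=
  Finset.card_le_card (Finset.filter_subset _ _)

/-- the potential -/
def pot (C : Circuit V s) (x : V → Bool) : ℕ → ℕ
  | 0 => 0
  | j + 1 => C.pot x j * ((C.wires (j + 1)).card + 1) + C.ons (j + 1) x

/-- the maximal number of values of the potential -/
def cap (C : Circuit V s) : ℕ → ℕ
  | 0 => 1
  | j + 1 => C.cap j * ((C.wires (j + 1)).card + 1)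

theorem pot_lt_cap (C : Circuit V s) (x : V → Bool) (j : ℕ) : C.pot x j < C.cap j := by
  induction j with
  | zero => simp [pot, cap]
  | succ j ih =>
    rw [pot, cap]
    have h1 := C.ons_le (j + 1) x
    calc C.pot x j * ((C.wires (j + 1)).card + 1) + C.ons (j + 1) x
        < C.pot x j * ((C.wires (j + 1)).card + 1) + ((C.wires (j + 1)).card + 1) := by omega
      _ = (C.pot x j + 1) * ((C.wires (j + 1)).card + 1) := by ring
      _ ≤ C.cap j * ((C.wires (j + 1)).card + 1) := Nat.mul_le_mul_right _ ih

theorem agree_zero (C : Circuit V s) (x y : V → Bool) : C.Agree 0 x y := by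
  intro i r hi
  cases hg : C.gate i with
  | var v => rw [inp, inp, hg]
  | const b => rw [inp, inp, hg]
  | and a b => rw [inp, inp, hg]
  | or a b => rw [inp, inp, hg]
  | other m a g =>
    rw [lev, hg] at hi
    simp only at hi
    omega

/-- The potential is monotone and increases whenever a wire changes. -/
theorem pot_mono (C : Circuit V s) {x y : V → Bool} (hxy : x ≤ y) (j : ℕ) :
    C.pot x j ≤ C.pot y j ∧ (¬ C.Agree j x y → C.pot x j < C.pot y j) := by
  induction j with
  | zero => exact ⟨le_rfl, fun h => absurd (C.agree_zero x y) h⟩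
  | succ j ih =>
    obtain ⟨ih1, ih2⟩ := ih
    by_cases hag : C.Agree j x y
    · have hsub : (C.wires (j + 1)).filter (fun w => C.inp x w.1 w.2 = true) ⊆
          (C.wires (j + 1)).filter (fun w => C.inp y w.1 w.2 = true) := by
        intro w hw
        rw [Finset.mem_filter] at hw ⊢
        refine ⟨hw.1, ?_⟩
        have hl := (Finset.mem_filter.1 (Finset.mem_sigma.1 hw.1).1).2
        exact C.mono_of_agree j hxy hag w.1 w.2 hl.le hw.2
      have hons : C.ons (j + 1) x ≤ C.ons (j + 1) y := Finset.card_le_card hsub
      constructor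
      · rw [pot, pot]
        have := Nat.mul_le_mul_right ((C.wires (j + 1)).card + 1) ih1
        omega
      · intro hnot
        have hlt : C.ons (j + 1) x < C.ons (j + 1) y := by
          apply Finset.card_lt_card
          rw [Finset.ssubset_iff_of_subset hsub]
          unfold Agree at hnot
          push Not at hnot
          obtain ⟨i, r, hi, hne⟩ := hnot
          have hlev : C.lev i = j + 1 := by
            by_contra hcon
            exact hne (hag i r (by omega))
          have hfan : r < (C.gate i).fan := by
            by_contra hcon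
            rw [C.inp_of_fan_le x i r (by omega), C.inp_of_fan_le y i r (by omega)] at hne
            exact hne rfl
          have hx : C.inp x i r = false := by
            cases hv : C.inp x i r with
            | false => rfl
            | true =>
              have := C.mono_of_agree j hxy hag i r hi hv
              rw [hv, this] at hne
              exact absurd rfl hne
          have hy : C.inp y i r = true := by
            rw [hx] at hne
            cases hv : C.inp y i r with
            | true => rfl
            | false => rw [hv] at hne; exact absurd rfl hne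
          refine ⟨⟨i, r⟩, ?_, ?_⟩
          · rw [Finset.mem_filter]
            exact ⟨Finset.mem_sigma.2 ⟨Finset.mem_filter.2 ⟨Finset.mem_univ _, hlev⟩,
              Finset.mem_range.2 hfan⟩, hy⟩
          · rw [Finset.mem_filter]
            rintro ⟨-, h⟩
            simp only at h
            rw [hx] at h
            exact absurd h Bool.false_ne_true
        rw [pot, pot]
        have := Nat.mul_le_mul_right ((C.wires (j + 1)).card + 1) ih1
        omega
    · have hlt := ih2 hag
      have h1 : (C.pot x j + 1) * ((C.wires (j + 1)).card + 1) ≤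
          C.pot y j * ((C.wires (j + 1)).card + 1) := Nat.mul_le_mul_right _ hlt
      have h2 := C.ons_le (j + 1) x
      have h3 : C.pot x (j + 1) < C.pot y (j + 1) := by
        rw [pot, pot]
        have h4 : (C.pot x j + 1) * ((C.wires (j + 1)).card + 1) =
          C.pot x j * ((C.wires (j + 1)).card + 1) + ((C.wires (j + 1)).card + 1) := by ring
        omega
      exact ⟨h3.le, fun _ => h3⟩

open Classical in
/-- Along an increasing chain the number of changes is less than `cap`. -/
theorem changes_lt (C : Circuit V s) (k K : ℕ) (Z : ℕ → V → Bool) (hZ : Monotone Z) :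
    ((range K).filter (fun t => ¬ C.Agree k (Z t) (Z (t + 1)))).card < C.cap k := by
  have h : ((range K).filter (fun t => ¬ C.Agree k (Z t) (Z (t + 1)))).card ≤
      C.pot (Z K) k := by
    induction K with
    | zero => simp
    | succ K ih =>
      rw [Finset.range_add_one, Finset.filter_insert]
      have h1 := C.pot_mono (hZ (Nat.le_succ K)) k
      by_cases hc : C.Agree k (Z K) (Z (K + 1))
      · rw [if_neg (not_not.2 hc)]
        exact ih.trans h1.1
      · rw [if_pos hc, Finset.card_insert_of_notMem (by simp)]
        have := h1.2 hc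
        have h2 : K.succ = K + 1 := rfl
        rw [h2] at this
        omega
  exact lt_of_le_of_lt h (C.pot_lt_cap _ k)

theorem wires_sum (C : Circuit V s) (k : ℕ) :
    ∑ j ∈ range k, (C.wires (j + 1)).card ≤ C.otherFan := by
  have h1 : ∀ j, (C.wires j).card = ∑ i, if C.lev i = j then (C.gate i).fan else 0 := by
    intro j
    rw [wires, Finset.card_sigma, Finset.sum_filter]
    simp
  rw [Finset.sum_congr rfl (fun j _ => h1 (j + 1)), Finset.sum_comm, otherFan]
  apply Finset.sum_le_sum
  intro i _
  calc ∑ j ∈ range k, (if C.lev i = j + 1 then (C.gate i).fan else 0)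
      = ∑ j ∈ range k, (if j = C.lev i - 1 then
          (if C.lev i = j + 1 then (C.gate i).fan else 0) else 0) := by
        refine Finset.sum_congr rfl fun j _ => ?_
        by_cases hj : C.lev i = j + 1
        · rw [if_pos hj, if_pos (by omega)]
        · rw [if_neg hj]
          split_ifs <;> rfl
    _ ≤ (C.gate i).fan := by
        rw [Finset.sum_ite_eq']
        split_ifs <;> omega

/-- the arithmetic-geometric mean inequality in the form needed -/
theorem prod_le_pow (w : ℕ → ℝ) (hw : ∀ j, 0 ≤ w j) (I : ℝ) (k : ℕ) (hk : 0 < k)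
    (hsum : ∑ j ∈ range k, w j ≤ I) : ∏ j ∈ range k, (w j + 1) ≤ (1 + I / k) ^ k := by
  have hkR : (0 : ℝ) < k := by exact_mod_cast hk
  have hsum1 : ∑ _j ∈ range k, (1 : ℝ) = k := by
    rw [Finset.sum_const, Finset.card_range, nsmul_eq_mul, mul_one]
  have h3 := Real.geom_mean_le_arith_mean (range k) (fun _ => (1 : ℝ))
    (fun j => w j + 1) (fun _ _ => zero_le_one)
    (by rw [hsum1]; exact hkR) (fun j _ => add_nonneg (hw j) zero_le_one)
  rw [hsum1] at h3
  simp only [Real.rpow_one, one_mul] at h3
  have hP : 0 ≤ ∏ j ∈ range k, (w j + 1) :=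
    Finset.prod_nonneg fun j _ => add_nonneg (hw j) zero_le_one
  have hS : 0 ≤ ∑ j ∈ range k, (w j + 1) :=
    Finset.sum_nonneg fun j _ => add_nonneg (hw j) zero_le_one
  have h4 := pow_le_pow_left₀ (Real.rpow_nonneg hP _) h3 k
  have h5 : ((∏ j ∈ range k, (w j + 1)) ^ ((k : ℝ)⁻¹)) ^ k = ∏ j ∈ range k, (w j + 1) := by
    rw [← Real.rpow_natCast, ← Real.rpow_mul hP, inv_mul_cancel₀ hkR.ne', Real.rpow_one]
  rw [h5] at h4
  refine h4.trans (pow_le_pow_left₀ (div_nonneg hS hkR.le) ?_ k)
  rw [Finset.sum_add_distrib, Finset.sum_const, Finset.card_range, nsmul_eq_mul, mul_one,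
    add_div, div_self hkR.ne', add_comm]
  have := div_le_div_of_nonneg_right hsum hkR.le
  linarith

/-- `cap` is at most `(I / k + 1) ^ k` with `I` the total fan-in of the other gates. -/
theorem cap_le (C : Circuit V s) (k : ℕ) (hk : 0 < k) :
    (C.cap k : ℝ) ≤ (1 + (C.otherFan : ℝ) / k) ^ k := by
  have h1 : ∀ k : ℕ, (C.cap k : ℝ) = ∏ j ∈ range k, (((C.wires (j + 1)).card : ℝ) + 1) := by
    intro k
    induction k with
    | zero => rw [Finset.prod_range_zero]; exact Nat.cast_one
    | succ k ih =>
      rw [Finset.prod_range_succ, ← ih, cap]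
      push_cast
      ring
  rw [h1 k]
  apply prod_le_pow (fun j => ((C.wires (j + 1)).card : ℝ)) (fun _ => Nat.cast_nonneg _) _ k hk
  have h2 := C.wires_sum k
  exact_mod_cast h2

/-- The test: is one of the wires that are off at `c` switched on, or the output on? -/
noncomputable def test (C : Circuit V s) (k : ℕ) (c : Fin s → Bool) (off : Fin s → ℕ → Bool) :
    List ((V → Bool) → Bool) :=
  (fun x => C.valFix c x C.out) ::
    ((((univ.filter (fun i => C.lev i ≤ k)).sigma (fun i => range (C.gate i).fan)).filter
      (fun w => off w.1 w.2 = true)).toList.map (fun w x => C.inpFix c x w.1 w.2))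

end Circuit

end Pool.Agent.H.MP_8a52c3_lc
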