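import Pool.Agent.H.MP_8a52c3_lc.Others

/-!
# The chain theorems with exceptional chains
-/

set_option autoImplicit false

open Finset

namespace Pool.Agent.H.MP_8a52c3_lc

/-- The counting behind the chain theorem. -/
theorem chain_count_bad {K : ℕ} {Q : Type} [Fintype Q] [Nonempty Q]
    (ch : Fin K → (Fin K → Q) → Prop) [∀ j u, Decidable (ch j u)] (B : ℕ)
    (bad : Finset (Fin K → Q)) (hbad : 4 * bad.card ≤ Fintype.card (Fin K → Q))
    (hstep : ∀ (j : Fin K) (u : Fin K → Q),
      Fintype.card Q ≤ 2 * (univ.filter (fun v : Q => ch j (Function.update u j v))).card)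
    (hB : ∀ u : Fin K → Q, u ∉ bad → (univ.filter (fun j : Fin K => ch j u)).card ≤ B) :
    K ≤ 4 * B := by
  classical
  have hQ : 0 < Fintype.card Q := Fintype.card_pos
  set N := Fintype.card (Fin K → Q) with hN
  have hNpos : 0 < N := Fintype.card_pos
  have h1 : ∀ j : Fin K, N ≤ 2 * ∑ u : Fin K → Q, (if ch j u then 1 else 0) := by
    intro j
    have h2 := sum_update j (fun u : Fin K → Q => if ch j u then 1 else 0)
    have h3 : N * Fintype.card Q ≤ 2 * (Fintype.card Q *
        ∑ u : Fin K → Q, (if ch j u then 1 else 0)) := by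
      rw [← h2, Finset.mul_sum]
      calc N * Fintype.card Q = ∑ _u : Fin K → Q, Fintype.card Q := by
            rw [Finset.sum_const, smul_eq_mul, Finset.card_univ]
        _ ≤ _ := by
            apply Finset.sum_le_sum
            intro u _
            have := hstep j u
            rw [Finset.card_filter] at this
            exact this
    have h4 : Fintype.card Q * N ≤ Fintype.card Q *
        (2 * ∑ u : Fin K → Q, (if ch j u then 1 else 0)) := by
      calc _ = N * Fintype.card Q := by ring
        _ ≤ _ := h3
        _ = _ := by ring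
    exact Nat.le_of_mul_le_mul_left h4 hQ
  have h5 : K * N ≤ 2 * (N * B + bad.card * K) := by
    calc K * N = ∑ _j : Fin K, N := by
          rw [Finset.sum_const, smul_eq_mul, Finset.card_univ, Fintype.card_fin]
      _ ≤ ∑ j : Fin K, 2 * ∑ u : Fin K → Q, (if ch j u then 1 else 0) :=
          Finset.sum_le_sum (fun j _ => h1 j)
      _ = 2 * ∑ u : Fin K → Q, ∑ j : Fin K, (if ch j u then 1 else 0) := by
          rw [← Finset.mul_sum, Finset.sum_comm]
      _ ≤ 2 * ∑ u : Fin K → Q, (B + if u ∈ bad then K else 0) := by
          apply Nat.mul_le_mul_left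
          apply Finset.sum_le_sum
          intro u _
          by_cases hu : u ∈ bad
          · rw [if_pos hu]
            calc ∑ j : Fin K, (if ch j u then 1 else 0) ≤ ∑ _j : Fin K, 1 :=
                  Finset.sum_le_sum (fun j _ => by split_ifs <;> omega)
              _ = K := by simp
              _ ≤ B + K := Nat.le_add_left _ _
          · rw [if_neg hu, add_zero]
            have := hB u hu
            rw [Finset.card_filter] at this
            exact this
      _ = 2 * (N * B + bad.card * K) := by
          rw [Finset.sum_add_distrib, Finset.sum_const, smul_eq_mul, Finset.card_univ]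
          congr 2
          rw [← Finset.sum_filter]
          have : (univ.filter (fun u => u ∈ bad)) = bad := by ext u; simp
          rw [this, Finset.sum_const, smul_eq_mul]
  have h7 : 4 * (bad.card * K) ≤ N * K := by
    calc 4 * (bad.card * K) = (4 * bad.card) * K := by ring
      _ ≤ N * K := Nat.mul_le_mul_right _ hbad
  have h6 : N * K ≤ N * (4 * B) := by
    have e1 : N * (4 * B) = 4 * (N * B) := by ring
    have e2 : K * N = N * K := by ring
    omega
  exact Nat.le_of_mul_le_mul_left h6 hNpos

open Classical in
/-- The chain theorem with exceptional chains. -/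
theorem chain_bound_bad {V : Type} {s : ℕ} (C : Circuit V s) {K : ℕ} {Q P : Type} [Fintype Q]
    [Nonempty Q] (Z : ℕ → (Fin K → Q) → V → Bool) (Y : Fin K → (Fin K → Q) → P → V → Bool)
    (hmono : ∀ u, Monotone (fun j => Z j u))
    (hup : ∀ (j : Fin K) u v, Z j.val (Function.update u j v) = Z j.val u)
    (hZY : ∀ (j : Fin K) u a, Z j.val u ≤ Y j u a)
    (bad : Finset (Fin K → Q)) (hbad : 4 * bad.card ≤ Fintype.card (Fin K → Q))
    (hZ0 : ∀ j u, u ∉ bad → C.eval (Z j u) = false)
    (hY1 : ∀ j u a, C.eval (Y j u a) = true)
    (hard : ∀ (j : Fin K) u (t : ℕ) (L : List ((V → Bool) → Bool)) (g : (V → Bool) → Bool),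
      MonoProg t L → t ≤ C.size + C.relFan C.otherDepth + 1 → g ∈ L → (∀ a, g (Y j u a) = true) →
      Fintype.card Q ≤ 2 * (univ.filter
        (fun v : Q => g (Z (j.val + 1) (Function.update u j v)) = true)).card) :
    K + 4 ≤ 4 * C.cap C.otherDepth := by
  have h1 : ∀ u : Fin K → Q, u ∉ bad → (univ.filter (fun j : Fin K =>
      C.testFun C.otherDepth (Z j.val u) (Z (j.val + 1) u) = true)).card ≤
      C.cap C.otherDepth - 1 := by
    intro u hu
    have h2 := C.changes_lt C.otherDepth K (fun t => Z t u) (hmono u)
    have h3 : (univ.filter (fun j : Fin K =>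
        C.testFun C.otherDepth (Z j.val u) (Z (j.val + 1) u) = true)).card ≤
        ((range K).filter (fun t => ¬ C.Agree C.otherDepth (Z t u) (Z (t + 1) u))).card := by
      refine Finset.card_le_card_of_injOn (fun j => j.val) ?_ ?_
      · intro j hj
        have := (Finset.mem_filter.1 (Finset.mem_coe.1 hj)).2
        exact Finset.mem_coe.2 (Finset.mem_filter.2 ⟨Finset.mem_range.2 j.isLt,
          C.not_agree_of_test C.otherDepth le_rfl (hZ0 _ _ hu) this⟩)
      · intro j _ j' _ h
        exact Fin.ext h
    omega
  have h2 := chain_count_bad (fun (j : Fin K) (u : Fin K → Q) =>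
    C.testFun C.otherDepth (Z j.val u) (Z (j.val + 1) u) = true) (C.cap C.otherDepth - 1) bad
    hbad ?_ h1
  · have h3 := C.pot_lt_cap (Z 0 (fun _ => Classical.arbitrary Q)) C.otherDepth
    omega
  · intro j u
    obtain ⟨t, L, hL, ht, hmem⟩ := C.testFun_prog C.otherDepth (Z j.val u)
    refine (hard j u t L _ hL ht hmem ?_).trans ?_
    · intro a
      exact C.testFun_true C.otherDepth le_rfl (hZY j u a) (hY1 j u a)
    · apply Nat.mul_le_mul_left
      apply Finset.card_le_card
      intro v hv
      rw [Finset.mem_filter] at hv ⊢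
      refine ⟨Finset.mem_univ _, ?_⟩
      rw [hup]
      exact hv.2

open Classical in
/-- The chain theorem for functions that are determined by few monotone functions, with
exceptional chains. -/
theorem chain_features_bad {V ι : Type} (F : Finset ι) (h : ι → (V → Bool) → Bool)
    {t₀ : ℕ} {L₀ : List ((V → Bool) → Bool)} (hL₀ : MonoProg t₀ L₀) (hmem : ∀ i ∈ F, h i ∈ L₀)
    (f : (V → Bool) → Bool) (hdet : ∀ x y, (∀ i ∈ F, h i x = h i y) → f x = f y)
    {K : ℕ} {Q P : Type} [Fintype Q] [Nonempty Q] [Nonempty P]
    (Z : ℕ → (Fin K → Q) → V → Bool) (Y : Fin K → (Fin K → Q) → P → V → Bool)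
    (hmono : ∀ u, Monotone (fun j => Z j u))
    (hup : ∀ (j : Fin K) u v, Z j.val (Function.update u j v) = Z j.val u)
    (hZY : ∀ (j : Fin K) u a, Z j.val u ≤ Y j u a)
    (bad : Finset (Fin K → Q)) (hbad : 4 * bad.card ≤ Fintype.card (Fin K → Q))
    (hZ0 : ∀ j u, u ∉ bad → f (Z j u) = false) (hY1 : ∀ j u a, f (Y j u a) = true)
    (hard : ∀ (j : Fin K) u (t : ℕ) (L : List ((V → Bool) → Bool)) (g : (V → Bool) → Bool),
      MonoProg t L → t ≤ t₀ + F.card → g ∈ L → (∀ a, g (Y j u a) = true) →
      Fintype.card Q ≤ 2 * (univ.filter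
        (fun v : Q => g (Z (j.val + 1) (Function.update u j v)) = true)).card) :
    K ≤ 4 * (F.card + 1) := by
  have hm : ∀ i ∈ F, Monotone (h i) := fun i hi => hL₀.monotone _ (hmem i hi)
  -- the case in which `f` accepts the beginning of the chain is dealt with by one more function
  refine chain_count_bad (fun (j : Fin K) (u : Fin K → Q) =>
    (∃ i ∈ F, h i (Z j.val u) = false ∧ h i (Z (j.val + 1) u) = true) ∨
      f (Z j.val u) = true) (F.card + 1) bad hbad ?_ ?_
  · intro j u
    by_cases hf : f (Z j.val u) = true
    · have : (univ.filter (fun v : Q =>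
          (∃ i ∈ F, h i (Z j.val (Function.update u j v)) = false ∧
            h i (Z (j.val + 1) (Function.update u j v)) = true) ∨
          f (Z j.val (Function.update u j v)) = true)) = univ := by
        rw [Finset.filter_eq_self]
        intro v _
        right
        rw [hup]
        exact hf
      rw [this, Finset.card_univ]
      omega
    · obtain ⟨L', h1, -, h3⟩ := hL₀.any
        ((F.filter (fun i => h i (Z j.val u) = false)).toList.map h)
        (by
          intro g hg
          rw [List.mem_map] at hg
          obtain ⟨i, hi, rfl⟩ := hg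
          rw [Finset.mem_toList, Finset.mem_filter] at hi
          exact hmem i hi.1)
      rw [List.length_map, Finset.length_toList] at h1
      refine (hard j u _ L' _ h1 (Nat.add_le_add_left (Finset.card_filter_le _ _) _) h3
        ?_).trans ?_
      · intro a
        rw [List.any_eq_true]
        by_contra hcon
        push Not at hcon
        have hag : ∀ i ∈ F, h i (Z j.val u) = h i (Y j u a) := by
          intro i hi
          have hle := Bool.le_iff_imp.1 (hm i hi (hZY j u a))
          cases hz : h i (Z j.val u) with
          | true => rw [hle hz]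
          | false =>
            have := hcon (h i) (List.mem_map.2 ⟨i, by
              rw [Finset.mem_toList, Finset.mem_filter]; exact ⟨hi, hz⟩, rfl⟩)
            cases hy : h i (Y j u a) with
            | false => rfl
            | true => exact absurd hy this
        have := hdet _ _ hag
        rw [hY1] at this
        exact hf this
      · apply Nat.mul_le_mul_left
        apply Finset.card_le_card
        intro v hv
        rw [Finset.mem_filter] at hv ⊢
        refine ⟨Finset.mem_univ _, ?_⟩
        have hv2 := hv.2
        rw [List.any_eq_true] at hv2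
        obtain ⟨g, hg, hgv⟩ := hv2
        rw [List.mem_map] at hg
        obtain ⟨i, hi, rfl⟩ := hg
        rw [Finset.mem_toList, Finset.mem_filter] at hi
        exact Or.inl ⟨i, hi.1, by rw [hup]; exact hi.2, hgv⟩
  · intro u hu
    have hnof : ∀ j : Fin K, ¬ f (Z j.val u) = true := by
      intro j hj
      rw [hZ0 _ _ hu] at hj
      exact Bool.false_ne_true hj
    have h0 : ∀ j : Fin K, ((∃ i ∈ F, h i (Z j.val u) = false ∧
        h i (Z (j.val + 1) u) = true) ∨ f (Z j.val u) = true) →
        ∃ i ∈ F, h i (Z j.val u) = false ∧ h i (Z (j.val + 1) u) = true := by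
      intro j hj
      rcases hj with hj | hj
      · exact hj
      · exact absurd hj (hnof j)
    refine le_trans ?_ (Nat.le_succ _)
    rcases F.eq_empty_or_nonempty with he | ⟨i₀, hi₀⟩
    · refine le_of_eq ?_
      rw [he, Finset.card_empty, Finset.card_eq_zero, Finset.filter_eq_empty_iff]
      intro j _ hj
      obtain ⟨i, hi, -⟩ := h0 j (by rw [he]; exact hj)
      rw [he] at hi
      exact Finset.notMem_empty i hi
    · have hex : ∀ j : Fin K, ∃ i, ((∃ i ∈ F, h i (Z j.val u) = false ∧
          h i (Z (j.val + 1) u) = true) ∨ f (Z j.val u) = true) →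
          i ∈ F ∧ h i (Z j.val u) = false ∧ h i (Z (j.val + 1) u) = true := by
        intro j
        by_cases hc : ∃ i ∈ F, h i (Z j.val u) = false ∧ h i (Z (j.val + 1) u) = true
        · obtain ⟨i, hi⟩ := hc
          exact ⟨i, fun _ => hi⟩
        · exact ⟨i₀, fun h => absurd (h0 j h) hc⟩
      choose φ hφ using hex
      refine Finset.card_le_card_of_injOn φ ?_ ?_
      · intro j hj
        exact Finset.mem_coe.2 (hφ j (Finset.mem_filter.1 (Finset.mem_coe.1 hj)).2).1
      · intro j hj j' hj' hjj
        obtain ⟨h1, h2, h3⟩ := hφ j (Finset.mem_filter.1 (Finset.mem_coe.1 hj)).2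
        obtain ⟨h1', h2', h3'⟩ := hφ j' (Finset.mem_filter.1 (Finset.mem_coe.1 hj')).2
        by_contra hne
        rcases lt_or_gt_of_ne (fun h => hne (Fin.ext h) : j.val ≠ j'.val) with hlt | hlt
        · have hle := hm _ h1 (hmono u (by omega : j.val + 1 ≤ j'.val))
          have := Bool.le_iff_imp.1 hle h3
          simp only at this
          rw [hjj] at this
          rw [h2'] at this
          exact Bool.false_ne_true this
        · have hle := hm _ h1' (hmono u (by omega : j'.val + 1 ≤ j.val))
          have := Bool.le_iff_imp.1 hle h3'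
          simp only at this
          rw [← hjj] at this
          rw [h2] at this
          exact Bool.false_ne_true this

end Pool.Agent.H.MP_8a52c3_lc
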