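import Mathlib

/-!
# Boolean circuits: the definitions used in the statements
-/

set_option autoImplicit false

namespace Pool.Agent.H.MP_8a52c3_lc

/-- A gate that may read the gates `0, ..., i - 1`: an input variable, a constant, an AND or an OR
gate of fan-in two, or any other gate: a gate of fan-in `m` that computes an arbitrary Boolean
function `g`.  A NOT gate is such a gate with `m = 1`. -/
inductive Gate (V : Type) (i : ℕ) : Type
  | var (v : V) : Gate V i
  | const (b : Bool) : Gate V i
  | and (a b : Fin i) : Gate V i
  | or (a b : Fin i) : Gate V i
  | other (m : ℕ) (a : Fin m → Fin i) (g : (Fin m → Bool) → Bool) : Gate V i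

namespace Gate

variable {V : Type} {i : ℕ}

/-- is it an AND or an OR gate? -/
def isBin : Gate V i → Bool
  | .and _ _ => true
  | .or _ _ => true
  | _ => false

/-- is it an other gate? -/
def isOther : Gate V i → Bool
  | .other _ _ _ => true
  | _ => false

/-- the fan-in of the other gates; zero for variables, constants, AND and OR gates -/
def fan : Gate V i → ℕ
  | .other m _ _ => m
  | _ => 0

end Gate

/-- A Boolean circuit: `s` gates in topological order and a distinguished output gate. -/
structure Circuit (V : Type) (s : ℕ) where
  /-- the gates -/
  gate : (i : Fin s) → Gate V i.val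
  /-- the output gate -/
  out : Fin s

namespace Circuit

variable {V : Type} {s : ℕ}

/-- the value computed at gate `i` -/
def val (C : Circuit V s) (x : V → Bool) (i : Fin s) : Bool :=
  match C.gate i with
  | .var v => x v
  | .const b => b
  | .and a b => C.val x ⟨a.val, a.isLt.trans i.isLt⟩ && C.val x ⟨b.val, b.isLt.trans i.isLt⟩
  | .or a b => C.val x ⟨a.val, a.isLt.trans i.isLt⟩ || C.val x ⟨b.val, b.isLt.trans i.isLt⟩
  | .other _ a g => g (fun r => C.val x ⟨(a r).val, (a r).isLt.trans i.isLt⟩)
termination_by i.val
decreasing_by
  all_goals first | exact a.isLt | exact b.isLt | exact (a r).isLt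

/-- the largest number of other gates (gates that are not AND or OR gates) on a path from an input
to gate `i`, gate `i` included -/
def lev (C : Circuit V s) (i : Fin s) : ℕ :=
  match C.gate i with
  | .var _ => 0
  | .const _ => 0
  | .and a b => max (C.lev ⟨a.val, a.isLt.trans i.isLt⟩) (C.lev ⟨b.val, b.isLt.trans i.isLt⟩)
  | .or a b => max (C.lev ⟨a.val, a.isLt.trans i.isLt⟩) (C.lev ⟨b.val, b.isLt.trans i.isLt⟩)
  | .other _ a _ =>
      (Finset.univ.sup fun r => C.lev ⟨(a r).val, (a r).isLt.trans i.isLt⟩) + 1
termination_by i.val
decreasing_by
  all_goals first | exact a.isLt | exact b.isLt | exact (a r).isLt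

/-- the function computed by the circuit -/
def eval (C : Circuit V s) (x : V → Bool) : Bool := C.val x C.out

/-- the largest number of other gates on a path from an input to the output -/
def otherDepth (C : Circuit V s) : ℕ := C.lev C.out

/-- the total fan-in of the other gates (for NOT gates: their number) -/
def otherFan (C : Circuit V s) : ℕ := ∑ i, (C.gate i).fan

/-- the number of other gates -/
def numOther (C : Circuit V s) : ℕ :=
  (Finset.univ.filter (fun i => (C.gate i).isOther = true)).card

/-- the number of AND and OR gates -/
def size (C : Circuit V s) : ℕ := (Finset.univ.filter (fun i => (C.gate i).isBin = true)).card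

end Circuit

end Pool.Agent.H.MP_8a52c3_lc
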