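import Pool.Agent.H.MP_8a52c3_lc.Pluck
import Pool.Agent.H.MP_8a52c3_lc.Prog

/-!
# The approximation method for cliques against colourings
-/

set_option autoImplicit false

open Finset

namespace Pool.Agent.H.MP_8a52c3_lc

section

variable {V : Type} {k b q : ℕ}

/-- the edges of the clique whose vertices are `(i, a i)` -/
def posIn (ends : V → (Fin k × Fin b) × (Fin k × Fin b)) (a : Fin k → Fin b) : V → Bool :=
  fun v => decide (a (ends v).1.1 = (ends v).1.2 ∧ a (ends v).2.1 = (ends v).2.2)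

/-- the edges of the complete multipartite graph with colour classes given by `c` -/
def negIn (ends : V → (Fin k × Fin b) × (Fin k × Fin b)) (c : Fin k × Fin b → Fin q) :
    V → Bool :=
  fun v => decide (c (ends v).1 ≠ c (ends v).2)

theorem union_trans (l m : ℕ) (hb : 0 < b) (F G : Finset (Finset (Fin k × Fin b)))
    (hF : F.card ≤ m) (hG : G.card ≤ m) :
    b ^ (l + 1) * (univ.filter (fun a : Fin k → Fin b => ∃ X ∈ F, ∃ Y ∈ G, l < (X ∪ Y).card ∧
      ∀ u ∈ X ∪ Y, a u.1 = u.2)).card ≤ m * m * b ^ k := by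
  classical
  have h1 : (univ.filter (fun a : Fin k → Fin b => ∃ X ∈ F, ∃ Y ∈ G, l < (X ∪ Y).card ∧
      ∀ u ∈ X ∪ Y, a u.1 = u.2)) ⊆ (F ×ˢ G).biUnion (fun r => univ.filter
        (fun a : Fin k → Fin b => l < (r.1 ∪ r.2).card ∧ ∀ u ∈ r.1 ∪ r.2, a u.1 = u.2)) := by
    intro a ha
    obtain ⟨-, X, hX, Y, hY, h2, h3⟩ := Finset.mem_filter.1 ha
    exact Finset.mem_biUnion.2 ⟨(X, Y), Finset.mem_product.2 ⟨hX, hY⟩,
      Finset.mem_filter.2 ⟨Finset.mem_univ _, h2, h3⟩⟩
  have h2 : ∀ r ∈ F ×ˢ G, b ^ (l + 1) * (univ.filter (fun a : Fin k → Fin b =>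
      l < (r.1 ∪ r.2).card ∧ ∀ u ∈ r.1 ∪ r.2, a u.1 = u.2)).card ≤ b ^ k := by
    intro r _
    by_cases hr : l < (r.1 ∪ r.2).card
    · have h3 : (univ.filter (fun a : Fin k → Fin b =>
          l < (r.1 ∪ r.2).card ∧ ∀ u ∈ r.1 ∪ r.2, a u.1 = u.2)) =
          (univ.filter (fun a : Fin k → Fin b => ∀ u ∈ r.1 ∪ r.2, a u.1 = u.2)) := by
        ext a
        simp [hr]
      rw [h3]
      exact (Nat.mul_le_mul_right _ (Nat.pow_le_pow_right hb hr)).trans (trans_count _)
    · have h3 : (univ.filter (fun a : Fin k → Fin b =>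
          l < (r.1 ∪ r.2).card ∧ ∀ u ∈ r.1 ∪ r.2, a u.1 = u.2)) = ∅ := by
        ext a
        simp [hr]
      rw [h3]
      simp
  calc _ ≤ b ^ (l + 1) * ∑ r ∈ F ×ˢ G, (univ.filter (fun a : Fin k → Fin b =>
      l < (r.1 ∪ r.2).card ∧ ∀ u ∈ r.1 ∪ r.2, a u.1 = u.2)).card :=
        Nat.mul_le_mul_left _ ((Finset.card_le_card h1).trans Finset.card_biUnion_le)
    _ = ∑ r ∈ F ×ˢ G, b ^ (l + 1) * (univ.filter (fun a : Fin k → Fin b =>
      l < (r.1 ∪ r.2).card ∧ ∀ u ∈ r.1 ∪ r.2, a u.1 = u.2)).card := by rw [Finset.mul_sum]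
    _ ≤ ∑ _r ∈ F ×ˢ G, b ^ k := Finset.sum_le_sum h2
    _ = F.card * G.card * b ^ k := by rw [Finset.sum_const, smul_eq_mul, Finset.card_product]
    _ ≤ m * m * b ^ k := Nat.mul_le_mul_right _ (Nat.mul_le_mul hF hG)

/-- a family of vertex sets approximates a function outside of the error sets -/
def Approx (ends : V → (Fin k × Fin b) × (Fin k × Fin b)) (l m : ℕ)
    (Ep : Finset (Fin k → Fin b)) (En : Finset (Fin k × Fin b → Fin q))
    (g : (V → Bool) → Bool) : Prop :=
  ∃ F : Finset (Finset (Fin k × Fin b)), F.card ≤ m ∧ (∀ X ∈ F, X.card ≤ l) ∧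
    (∀ a ∉ Ep, g (posIn ends a) = true → ∃ X ∈ F, ∀ u ∈ X, a u.1 = u.2) ∧
    (∀ c ∉ En, (∃ X ∈ F, Set.InjOn c X) → g (negIn ends c) = true)

theorem Approx.mono {ends : V → (Fin k × Fin b) × (Fin k × Fin b)} {l m : ℕ}
    {Ep Ep' : Finset (Fin k → Fin b)} {En En' : Finset (Fin k × Fin b → Fin q)}
    {g : (V → Bool) → Bool} (h : Approx ends l m Ep En g) (hp : Ep ⊆ Ep') (hn : En ⊆ En') :
    Approx ends l m Ep' En' g := by
  obtain ⟨F, h1, h2, h3, h4⟩ := h
  exact ⟨F, h1, h2, fun a ha => h3 a (fun h => ha (hp h)), fun c hc => h4 c (fun h => hc (hn h))⟩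

theorem approx_prog (ends : V → (Fin k × Fin b) × (Fin k × Fin b))
    (hends : ∀ v, (ends v).1 ≠ (ends v).2) (l p : ℕ) (hl : 2 ≤ l) (hp : 2 ≤ p) (hb : 0 < b)
    (hq : 2 * (l * l) ≤ q) {t : ℕ} {L : List ((V → Bool) → Bool)} (h : MonoProg t L) :
    ∃ (Ep : Finset (Fin k → Fin b)) (En : Finset (Fin k × Fin b → Fin q)),
      b ^ (l + 1) * Ep.card ≤ t * ((p * l) ^ l * (p * l) ^ l * b ^ k) ∧
      2 ^ p * En.card ≤ t * ((p * l) ^ l * (p * l) ^ l * q ^ (k * b)) ∧
      ∀ g ∈ L, Approx ends l ((p * l) ^ l) Ep En g := by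
  classical
  have hU : Fintype.card (Fin k × Fin b) = k * b := by simp
  set m := (p * l) ^ l with hm
  have hpl : 4 ≤ p * l := by
    calc 4 = 2 * 2 := rfl
      _ ≤ p * l := Nat.mul_le_mul hp hl
  have hm2 : 2 ≤ m := by
    calc 2 ≤ (p * l) ^ 1 := by rw [pow_one]; omega
      _ ≤ m := Nat.pow_le_pow_right (by omega) (by omega)
  induction h with
  | nil => exact ⟨∅, ∅, by simp, by simp, fun g hg => absurd hg List.not_mem_nil⟩
  | var h v ih =>
    obtain ⟨Ep, En, h1, h2, h3⟩ := ih
    refine ⟨Ep, En, h1, h2, ?_⟩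
    intro g hg
    rcases List.mem_cons.1 hg with rfl | hg
    · refine ⟨{{(ends v).1, (ends v).2}}, ?_, ?_, ?_, ?_⟩
      · rw [Finset.card_singleton]; omega
      · intro X hX
        rw [Finset.mem_singleton] at hX
        rw [hX]
        exact Finset.card_le_two.trans hl
      · intro a _ ha
        refine ⟨_, Finset.mem_singleton_self _, ?_⟩
        have ha' := of_decide_eq_true ha
        intro u hu
        rcases Finset.mem_insert.1 hu with rfl | hu
        · exact ha'.1
        · rw [Finset.mem_singleton] at hu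
          rw [hu]; exact ha'.2
      · rintro c _ ⟨X, hX, hcX⟩
        rw [Finset.mem_singleton] at hX
        rw [hX] at hcX
        apply decide_eq_true
        intro heq
        exact hends v (hcX (by simp) (by simp) heq)
    · exact h3 g hg
  | const h b' ih =>
    obtain ⟨Ep, En, h1, h2, h3⟩ := ih
    refine ⟨Ep, En, h1, h2, ?_⟩
    intro g hg
    rcases List.mem_cons.1 hg with rfl | hg
    · cases b' with
      | true =>
        refine ⟨{∅}, ?_, ?_, ?_, ?_⟩
        · rw [Finset.card_singleton]; omega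
        · intro X hX
          rw [Finset.mem_singleton] at hX
          rw [hX]; simp
        · intro a _ _
          exact ⟨∅, Finset.mem_singleton_self _, by simp⟩
        · intro c _ _; rfl
      | false =>
        refine ⟨∅, by simp, by simp, ?_, ?_⟩
        · intro a _ ha
          exact absurd ha Bool.false_ne_true
        · rintro c _ ⟨X, hX, -⟩
          exact absurd hX (Finset.notMem_empty _)
    · exact h3 g hg
  | @and t L h f g hf hg ih =>
    obtain ⟨Ep, En, h1, h2, h3⟩ := ih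
    obtain ⟨F, hF1, hF2, hF3, hF4⟩ := h3 f hf
    obtain ⟨G, hG1, hG2, hG3, hG4⟩ := h3 g hg
    let H : Finset (Finset (Fin k × Fin b)) :=
      ((F ×ˢ G).image (fun r => r.1 ∪ r.2)).filter (fun X => X.card ≤ l)
    have hHcard : H.card ≤ m * m := by
      calc H.card ≤ ((F ×ˢ G).image (fun r => r.1 ∪ r.2)).card := Finset.card_filter_le _ _
        _ ≤ (F ×ˢ G).card := Finset.card_image_le
        _ = F.card * G.card := Finset.card_product _ _
        _ ≤ m * m := Nat.mul_le_mul hF1 hG1
    obtain ⟨H', hH1, hH2, hH3, hH4⟩ := pluck l p (by omega) hp hq (m * m) H hHcard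
      (fun X hX => (Finset.mem_filter.1 hX).2)
    let Ep' : Finset (Fin k → Fin b) := univ.filter (fun a => ∃ X ∈ F, ∃ Y ∈ G,
      l < (X ∪ Y).card ∧ ∀ u ∈ X ∪ Y, a u.1 = u.2)
    have hEp' : b ^ (l + 1) * Ep'.card ≤ m * m * b ^ k := union_trans l m hb F G hF1 hG1
    let En' : Finset (Fin k × Fin b → Fin q) := univ.filter (fun c =>
      (∃ X ∈ H', Set.InjOn c X) ∧ ¬ ∃ X ∈ H, Set.InjOn c X)
    have hEn' : 2 ^ p * En'.card ≤ m * m * q ^ (k * b) := by
      rw [hU] at hH4
      exact hH4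
    refine ⟨Ep ∪ Ep', En ∪ En', ?_, ?_, ?_⟩
    · calc b ^ (l + 1) * (Ep ∪ Ep').card ≤ b ^ (l + 1) * (Ep.card + Ep'.card) :=
          Nat.mul_le_mul_left _ (Finset.card_union_le _ _)
        _ = b ^ (l + 1) * Ep.card + b ^ (l + 1) * Ep'.card := by ring
        _ ≤ t * (m * m * b ^ k) + m * m * b ^ k := Nat.add_le_add h1 hEp'
        _ = (t + 1) * (m * m * b ^ k) := by ring
    · calc 2 ^ p * (En ∪ En').card ≤ 2 ^ p * (En.card + En'.card) :=
          Nat.mul_le_mul_left _ (Finset.card_union_le _ _)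
        _ = 2 ^ p * En.card + 2 ^ p * En'.card := by ring
        _ ≤ t * (m * m * q ^ (k * b)) + m * m * q ^ (k * b) := Nat.add_le_add h2 hEn'
        _ = (t + 1) * (m * m * q ^ (k * b)) := by ring
    · intro g' hg'
      rcases List.mem_cons.1 hg' with rfl | hg'
      · refine ⟨H', hH1, hH2, ?_, ?_⟩
        · intro a ha hval
          rw [Finset.mem_union, not_or] at ha
          rw [Bool.and_eq_true] at hval
          obtain ⟨X, hX, hXa⟩ := hF3 a ha.1 hval.1
          obtain ⟨Y, hY, hYa⟩ := hG3 a ha.1 hval.2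
          have hXY : ∀ u ∈ X ∪ Y, a u.1 = u.2 := by
            intro u hu
            rcases Finset.mem_union.1 hu with hu | hu
            · exact hXa u hu
            · exact hYa u hu
          have hcard : (X ∪ Y).card ≤ l := by
            by_contra hcon
            push Not at hcon
            exact ha.2 (Finset.mem_filter.2 ⟨Finset.mem_univ _, X, hX, Y, hY, hcon, hXY⟩)
          have hmem : X ∪ Y ∈ H := Finset.mem_filter.2 ⟨Finset.mem_image.2
            ⟨(X, Y), Finset.mem_product.2 ⟨hX, hY⟩, rfl⟩, hcard⟩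
          obtain ⟨X', hX', hsub⟩ := hH3 _ hmem
          exact ⟨X', hX', fun u hu => hXY u (hsub hu)⟩
        · intro c hc hex
          rw [Finset.mem_union, not_or] at hc
          have : ∃ X ∈ H, Set.InjOn c X := by
            by_contra hcon
            exact hc.2 (Finset.mem_filter.2 ⟨Finset.mem_univ _, hex, hcon⟩)
          obtain ⟨X, hX, hcX⟩ := this
          obtain ⟨r, hr, rfl⟩ := Finset.mem_image.1 (Finset.mem_filter.1 hX).1
          obtain ⟨hr1, hr2⟩ := Finset.mem_product.1 hr
          have e1 := hF4 c hc.1 ⟨r.1, hr1, hcX.mono (by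
            intro u hu; exact Finset.mem_coe.2 (Finset.mem_union_left _ (Finset.mem_coe.1 hu)))⟩
          have e2 := hG4 c hc.1 ⟨r.2, hr2, hcX.mono (by
            intro u hu; exact Finset.mem_coe.2 (Finset.mem_union_right _ (Finset.mem_coe.1 hu)))⟩
          change (f (negIn ends c) && g (negIn ends c)) = true
          rw [e1, e2]
          rfl
      · exact (h3 g' hg').mono Finset.subset_union_left Finset.subset_union_left
  | @or t L h f g hf hg ih =>
    obtain ⟨Ep, En, h1, h2, h3⟩ := ih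
    obtain ⟨F, hF1, hF2, hF3, hF4⟩ := h3 f hf
    obtain ⟨G, hG1, hG2, hG3, hG4⟩ := h3 g hg
    let H : Finset (Finset (Fin k × Fin b)) := F ∪ G
    have hHcard : H.card ≤ m * m := by
      calc H.card ≤ F.card + G.card := Finset.card_union_le _ _
        _ ≤ m + m := Nat.add_le_add hF1 hG1
        _ = 2 * m := by ring
        _ ≤ m * m := Nat.mul_le_mul_right _ hm2
    obtain ⟨H', hH1, hH2, hH3, hH4⟩ := pluck l p (by omega) hp hq (m * m) H hHcard
      (fun X hX => by
        rcases Finset.mem_union.1 hX with hX | hX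
        · exact hF2 X hX
        · exact hG2 X hX)
    let En' : Finset (Fin k × Fin b → Fin q) := univ.filter (fun c =>
      (∃ X ∈ H', Set.InjOn c X) ∧ ¬ ∃ X ∈ H, Set.InjOn c X)
    have hEn' : 2 ^ p * En'.card ≤ m * m * q ^ (k * b) := by
      rw [hU] at hH4
      exact hH4
    refine ⟨Ep, En ∪ En', ?_, ?_, ?_⟩
    · exact h1.trans (Nat.mul_le_mul_right _ (Nat.le_succ t))
    · calc 2 ^ p * (En ∪ En').card ≤ 2 ^ p * (En.card + En'.card) :=
          Nat.mul_le_mul_left _ (Finset.card_union_le _ _)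
        _ = 2 ^ p * En.card + 2 ^ p * En'.card := by ring
        _ ≤ t * (m * m * q ^ (k * b)) + m * m * q ^ (k * b) := Nat.add_le_add h2 hEn'
        _ = (t + 1) * (m * m * q ^ (k * b)) := by ring
    · intro g' hg'
      rcases List.mem_cons.1 hg' with rfl | hg'
      · refine ⟨H', hH1, hH2, ?_, ?_⟩
        · intro a ha hval
          rw [Bool.or_eq_true] at hval
          rcases hval with hval | hval
          · obtain ⟨X, hX, hXa⟩ := hF3 a ha hval
            obtain ⟨X', hX', hsub⟩ := hH3 X (Finset.mem_union_left _ hX)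
            exact ⟨X', hX', fun u hu => hXa u (hsub hu)⟩
          · obtain ⟨X, hX, hXa⟩ := hG3 a ha hval
            obtain ⟨X', hX', hsub⟩ := hH3 X (Finset.mem_union_right _ hX)
            exact ⟨X', hX', fun u hu => hXa u (hsub hu)⟩
        · intro c hc hex
          rw [Finset.mem_union, not_or] at hc
          have : ∃ X ∈ H, Set.InjOn c X := by
            by_contra hcon
            exact hc.2 (Finset.mem_filter.2 ⟨Finset.mem_univ _, hex, hcon⟩)
          obtain ⟨X, hX, hcX⟩ := this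
          change (f (negIn ends c) || g (negIn ends c)) = true
          rcases Finset.mem_union.1 hX with hX | hX
          · rw [hF4 c hc.1 ⟨X, hX, hcX⟩]; rfl
          · rw [hG4 c hc.1 ⟨X, hX, hcX⟩, Bool.or_true]
      · exact (h3 g' hg').mono (Finset.Subset.refl _) Finset.subset_union_left

open Classical in
/-- A monotone program with at most `T` gates that accepts all transversal cliques accepts more
than half of the complete `q`-partite graphs. -/
theorem accepts_half (ends : V → (Fin k × Fin b) × (Fin k × Fin b))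
    (hends : ∀ v, (ends v).1 ≠ (ends v).2) (l p T : ℕ) (hl : 2 ≤ l) (hp : 2 ≤ p) (hb : 0 < b)
    (hq : 4 * (l * l) ≤ q)
    (hT1 : T * ((p * l) ^ l * (p * l) ^ l) < b ^ (l + 1))
    (hT2 : 4 * (T * ((p * l) ^ l * (p * l) ^ l)) < 2 ^ p)
    {t : ℕ} {L : List ((V → Bool) → Bool)} (h : MonoProg t L) (ht : t ≤ T)
    {g : (V → Bool) → Bool} (hg : g ∈ L) (hpos : ∀ a, g (posIn ends a) = true) :
    q ^ (k * b) < 2 * (univ.filter (fun c : Fin k × Fin b → Fin q =>
      g (negIn ends c) = true)).card := by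
  have hU : Fintype.card (Fin k × Fin b) = k * b := by simp
  have hN : Fintype.card (Fin k × Fin b → Fin q) = q ^ (k * b) := by simp
  have hqpos : 0 < q := by
    have : 0 < l * l := Nat.mul_pos (by omega) (by omega)
    omega
  have hNpos : 0 < q ^ (k * b) := Nat.pow_pos hqpos
  obtain ⟨Ep, En, h1, h2, h3⟩ := approx_prog ends hends l p hl hp hb (q := q) (by omega) h
  obtain ⟨F, hF1, hF2, hF3, hF4⟩ := h3 g hg
  set M := (p * l) ^ l * (p * l) ^ l with hM
  -- some positive test is not misclassified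
  have hbk : 0 < b ^ k := Nat.pow_pos hb
  have hEp : Ep.card < b ^ k := by
    have h4 : b ^ (l + 1) * Ep.card < b ^ (l + 1) * b ^ k := by
      calc b ^ (l + 1) * Ep.card ≤ t * (M * b ^ k) := h1
        _ ≤ T * (M * b ^ k) := Nat.mul_le_mul_right _ ht
        _ = T * M * b ^ k := by ring
        _ < b ^ (l + 1) * b ^ k := Nat.mul_lt_mul_of_pos_right hT1 hbk
    exact Nat.lt_of_mul_lt_mul_left h4
  obtain ⟨a, ha⟩ : ∃ a, a ∉ Ep := by
    by_contra hcon
    push Not at hcon
    have : Ep = univ := Finset.eq_univ_iff_forall.2 hcon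
    rw [this, Finset.card_univ] at hEp
    simp at hEp
  obtain ⟨X, hX, -⟩ := hF3 a ha (hpos a)
  -- the negative tests that colour `X` injectively are accepted
  have h5 := bad_count (q := q) (fun _ => ⟨0, hqpos⟩) ∅ X (by simp) l (hF2 X hX)
  rw [hU, Finset.sdiff_empty] at h5
  set B := univ.filter (fun d : Fin k × Fin b → Fin q =>
    ¬ Set.InjOn (mix X (fun _ => ⟨0, hqpos⟩) d) X) with hB
  have h6 : 4 * B.card ≤ q ^ (k * b) := by
    have hll : 0 < l * l := Nat.mul_pos (by omega) (by omega)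
    have h7 : (l * l) * (4 * B.card) ≤ (l * l) * q ^ (k * b) := by
      calc (l * l) * (4 * B.card) = 4 * (l * l) * B.card := by ring
        _ ≤ q * B.card := Nat.mul_le_mul_right _ hq
        _ ≤ _ := h5
    exact Nat.le_of_mul_le_mul_left h7 hll
  have h8 : 4 * En.card < q ^ (k * b) := by
    have h9 : 2 ^ p * (4 * En.card) < 2 ^ p * q ^ (k * b) := by
      calc 2 ^ p * (4 * En.card) = 4 * (2 ^ p * En.card) := by ring
        _ ≤ 4 * (t * (M * q ^ (k * b))) := Nat.mul_le_mul_left _ h2
        _ ≤ 4 * (T * (M * q ^ (k * b))) :=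
          Nat.mul_le_mul_left _ (Nat.mul_le_mul_right _ ht)
        _ = 4 * (T * M) * q ^ (k * b) := by ring
        _ < 2 ^ p * q ^ (k * b) := Nat.mul_lt_mul_of_pos_right hT2 hNpos
    exact Nat.lt_of_mul_lt_mul_left h9
  have h10 : (univ : Finset (Fin k × Fin b → Fin q)) ⊆
      (B ∪ En) ∪ univ.filter (fun c : Fin k × Fin b → Fin q => g (negIn ends c) = true) := by
    intro c _
    by_cases hcB : c ∈ B
    · exact Finset.mem_union_left _ (Finset.mem_union_left _ hcB)
    · by_cases hcE : c ∈ En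
      · exact Finset.mem_union_left _ (Finset.mem_union_right _ hcE)
      · refine Finset.mem_union_right _ (Finset.mem_filter.2 ⟨Finset.mem_univ _, ?_⟩)
        apply hF4 c hcE
        refine ⟨X, hX, ?_⟩
        have h11 : Set.InjOn (mix X (fun _ => ⟨0, hqpos⟩) c) X := by
          by_contra hcon
          exact hcB (Finset.mem_filter.2 ⟨Finset.mem_univ _, hcon⟩)
        refine (Set.EqOn.injOn_iff ?_).1 h11
        intro u hu
        simp [mix, Finset.mem_coe.1 hu]
  have h12 := (Finset.card_le_card h10).trans (Finset.card_union_le _ _)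
  have h13 := Finset.card_union_le B En
  rw [Finset.card_univ, hN] at h12
  omega

end

end Pool.Agent.H.MP_8a52c3_lc
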