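import Pool.Agent.H.MP_8a52c3_lc.Tuples

/-!
# Functions of few monotone functions
-/

set_option autoImplicit false

open Finset

namespace Pool.Agent.H.MP_8a52c3_lc

theorem MonoProg.append {V : Type} {t t' : ℕ} {L L' : List ((V → Bool) → Bool)}
    (h : MonoProg t L) (h' : MonoProg t' L') : MonoProg (t + t') (L ++ L') := by
  induction h with
  | nil => rw [zero_add, List.nil_append]; exact h'
  | var h v ih => exact ih.var v
  | const h b ih => exact ih.const b
  | @and t L h f g hf hg ih =>
    have e : t + 1 + t' = t + t' + 1 := by ring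
    rw [e]
    exact ih.and (List.mem_append_left _ hf) (List.mem_append_left _ hg)
  | @or t L h f g hf hg ih =>
    have e : t + 1 + t' = t + t' + 1 := by ring
    rw [e]
    exact ih.or (List.mem_append_left _ hf) (List.mem_append_left _ hg)

open Classical in
/-- The chain theorem for functions that are determined by few monotone functions. -/
theorem chain_features {V ι : Type} (F : Finset ι) (h : ι → (V → Bool) → Bool)
    {t₀ : ℕ} {L₀ : List ((V → Bool) → Bool)} (hL₀ : MonoProg t₀ L₀) (hmem : ∀ i ∈ F, h i ∈ L₀)
    (f : (V → Bool) → Bool) (hdet : ∀ x y, (∀ i ∈ F, h i x = h i y) → f x = f y)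
    {K : ℕ} {Q P : Type} [Fintype Q] [Nonempty Q]
    (Z : ℕ → (Fin K → Q) → V → Bool) (Y : Fin K → (Fin K → Q) → P → V → Bool)
    (hmono : ∀ u, Monotone (fun j => Z j u))
    (hup : ∀ (j : Fin K) u v, Z j.val (Function.update u j v) = Z j.val u)
    (hZY : ∀ (j : Fin K) u a, Z j.val u ≤ Y j u a)
    (hZ0 : ∀ j u, f (Z j u) = false) (hY1 : ∀ j u a, f (Y j u a) = true)
    (hard : ∀ (j : Fin K) u (t : ℕ) (L : List ((V → Bool) → Bool)) (g : (V → Bool) → Bool),
      MonoProg t L → t ≤ t₀ + F.card → g ∈ L → (∀ a, g (Y j u a) = true) →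
      Fintype.card Q ≤ 2 * (univ.filter
        (fun v : Q => g (Z (j.val + 1) (Function.update u j v)) = true)).card) :
    K ≤ 2 * F.card := by
  have hm : ∀ i ∈ F, Monotone (h i) := fun i hi => hL₀.monotone _ (hmem i hi)
  refine chain_count (fun (j : Fin K) (u : Fin K → Q) =>
    ∃ i ∈ F, h i (Z j.val u) = false ∧ h i (Z (j.val + 1) u) = true) F.card ?_ ?_
  · intro j u
    obtain ⟨L', h1, -, h3⟩ := hL₀.any ((F.filter (fun i => h i (Z j.val u) = false)).toList.map h)
      (by
        intro g hg
        rw [List.mem_map] at hg
        obtain ⟨i, hi, rfl⟩ := hg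
        rw [Finset.mem_toList, Finset.mem_filter] at hi
        exact hmem i hi.1)
    rw [List.length_map, Finset.length_toList] at h1
    refine (hard j u _ L' _ h1 (Nat.add_le_add_left (Finset.card_filter_le _ _) _) h3 ?_).trans ?_
    · intro a
      rw [List.any_eq_true]
      by_contra hcon
      push Not at hcon
      have hag : ∀ i ∈ F, h i (Z j.val u) = h i (Y j u a) := by
        intro i hi
        have hle := Bool.le_iff_imp.1 (hm i hi (hZY j u a))
        cases hz : h i (Z j.val u) with
        | true => rw [hle hz]
        | false =>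
          have := hcon (h i) (List.mem_map.2 ⟨i, by
            rw [Finset.mem_toList, Finset.mem_filter]; exact ⟨hi, hz⟩, rfl⟩)
          cases hy : h i (Y j u a) with
          | false => rfl
          | true => exact absurd hy this
      have := hdet _ _ hag
      rw [hZ0, hY1] at this
      exact Bool.false_ne_true this
    · apply Nat.mul_le_mul_left
      apply Finset.card_le_card
      intro v hv
      rw [Finset.mem_filter] at hv ⊢
      refine ⟨Finset.mem_univ _, ?_⟩
      have hv2 := hv.2
      rw [List.any_eq_true] at hv2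
      obtain ⟨g, hg, hgv⟩ := hv2
      rw [List.mem_map] at hg
      obtain ⟨i, hi, rfl⟩ := hg
      rw [Finset.mem_toList, Finset.mem_filter] at hi
      exact ⟨i, hi.1, by rw [hup]; exact hi.2, hgv⟩
  · intro u
    -- choose for every change a function that changes
    have hex : ∀ j : Fin K, ∃ i, (∃ i ∈ F, h i (Z j.val u) = false ∧
        h i (Z (j.val + 1) u) = true) →
        i ∈ F ∧ h i (Z j.val u) = false ∧ h i (Z (j.val + 1) u) = true := by
      intro j
      by_cases hc : ∃ i ∈ F, h i (Z j.val u) = false ∧ h i (Z (j.val + 1) u) = true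
      · obtain ⟨i, hi⟩ := hc
        exact ⟨i, fun _ => hi⟩
      · rcases F.eq_empty_or_nonempty with he | ⟨i, hi⟩
        · by_cases hι : Nonempty ι
          · exact ⟨Classical.choice hι, fun h => absurd h hc⟩
          · exfalso
            have hall : ∀ x y : V → Bool, f x = f y := fun x y =>
              hdet x y (by rw [he]; intro i hi; exact absurd hi (Finset.notMem_empty i))
            by_cases hP : Nonempty P
            · have e1 := hZ0 0 u
              have e2 := hY1 j u (Classical.choice hP)
              rw [hall _ (Z 0 u), e1] at e2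
              exact Bool.false_ne_true e2
            · have hfalse : MonoProg 0 [fun _ : V → Bool => false] := MonoProg.nil.const false
              have := hard j u 0 _ _ hfalse (Nat.zero_le _) List.mem_cons_self
                (fun a => absurd ⟨a⟩ hP)
              simp only [Bool.false_eq_true, Finset.filter_false, Finset.card_empty, mul_zero,
                Nat.le_zero] at this
              exact absurd this Fintype.card_ne_zero
        · exact ⟨i, fun h => absurd h hc⟩
    choose φ hφ using hex
    refine Finset.card_le_card_of_injOn φ ?_ ?_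
    · intro j hj
      exact Finset.mem_coe.2 (hφ j (Finset.mem_filter.1 (Finset.mem_coe.1 hj)).2).1
    · intro j hj j' hj' hjj
      obtain ⟨h1, h2, h3⟩ := hφ j (Finset.mem_filter.1 (Finset.mem_coe.1 hj)).2
      obtain ⟨h1', h2', h3'⟩ := hφ j' (Finset.mem_filter.1 (Finset.mem_coe.1 hj')).2
      by_contra hne
      rcases lt_or_gt_of_ne (fun h => hne (Fin.ext h) : j.val ≠ j'.val) with hlt | hlt
      · have hle := hm _ h1 (hmono u (by omega : j.val + 1 ≤ j'.val))
        have := Bool.le_iff_imp.1 hle h3
        simp only at this
        rw [hjj] at this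
        rw [h2'] at this
        exact Bool.false_ne_true this
      · have hle := hm _ h1' (hmono u (by omega : j'.val + 1 ≤ j.val))
        have := Bool.le_iff_imp.1 hle h3'
        simp only at this
        rw [← hjj] at this
        rw [h2] at this
        exact Bool.false_ne_true this

section

variable {V : Type} {K k b q : ℕ}

/-- the bound for functions of few monotone functions of the edges -/
theorem roles_features {ι : Type} (F : Finset ι) (h : ι → (V → Bool) → Bool)
    {t₀ : ℕ} {L₀ : List ((V → Bool) → Bool)} (hL₀ : MonoProg t₀ L₀) (hmem : ∀ i ∈ F, h i ∈ L₀)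
    (f : (V → Bool) → Bool) (hdet : ∀ x y, (∀ i ∈ F, h i x = h i y) → f x = f y)
    (role : V → Role K k b)
    (hrole : ∀ v j x y, role v = .edge j x y → x ≠ y) {l : ℕ} (hl : 64 ≤ l) (hb : l ^ 7 ≤ b)
    (hq : 4 * l ^ 2 ≤ q) (hsize : t₀ + F.card ≤ l ^ l)
    (hZ : ∀ j (u : Fin K → Fin k × Fin b → Fin q), f (chainIn role j u) = false)
    (hY : ∀ j (u : Fin K → Fin k × Fin b → Fin q) a, f (branchIn role j u a) = true) :
    K ≤ 2 * F.card := by
  classical
  have hqpos : 0 < q := lt_of_lt_of_le (by positivity) hq
  obtain ⟨hT1, hT2⟩ := num_bounds l hl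
  have hbl : (l ^ 7) ^ (l + 1) ≤ b ^ (l + 1) := Nat.pow_le_pow_left hb _
  have : Nonempty (Fin k × Fin b → Fin q) := ⟨fun _ => ⟨0, hqpos⟩⟩
  refine chain_features F h hL₀ hmem f hdet (Q := Fin k × Fin b → Fin q) (P := Fin k → Fin b)
    (fun j u => chainIn role j u) (fun j u a => branchIn role j u a) ?_ ?_ ?_ hZ hY ?_
  · intro u j j' hjj
    apply fill_mono
    intro i x y h
    by_cases h1 : i.val < j
    · rw [if_pos h1] at h
      rw [if_pos (lt_of_lt_of_le h1 hjj)]
      exact h
    · rw [if_neg h1] at h
      exact absurd h Bool.false_ne_true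
  · intro j u v
    simp only [chainIn]
    congr 1
    funext i x y
    by_cases h1 : i.val < j.val
    · have hne : i ≠ j := fun h => by rw [h] at h1; exact lt_irrefl _ h1
      rw [Function.update_of_ne hne]
    · rw [if_neg h1, if_neg h1]
  · intro j u a
    apply fill_mono
    intro i x y h
    by_cases h1 : i.val < j.val
    · rw [if_pos h1] at h ⊢
      exact h
    · rw [if_neg h1] at h
      exact absurd h Bool.false_ne_true
  · intro j u t L g hL ht hg hpos
    obtain ⟨L', hL', hmem'⟩ := hL.subst (rest role j u) (rest_cases role j u)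
    have h1 := accepts_half (q := q)
      (fun e : {e : (Fin k × Fin b) × (Fin k × Fin b) // e.1 ≠ e.2} => e.val)
      (fun e => e.2) l (l ^ 2) (l ^ l) (by omega) (by nlinarith)
      (lt_of_lt_of_le (by positivity) hb) (by rw [← sq]; exact hq)
      (lt_of_lt_of_le hT1 hbl) hT2 hL' (ht.trans hsize) (hmem' g hg) (by
        intro a
        have := hpos a
        rw [← rest_pos role hrole j u a] at this
        exact this)
    have hN : Fintype.card (Fin k × Fin b → Fin q) = q ^ (k * b) := by simp
    rw [hN]
    refine h1.le.trans (Nat.mul_le_mul_left _ (Finset.card_le_card ?_))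
    intro c hc
    rw [Finset.mem_filter] at hc ⊢
    refine ⟨Finset.mem_univ _, ?_⟩
    have h2 := hc.2
    rw [← rest_neg role hrole j u c]
    exact h2

end

namespace Circuit

variable {V : Type} {s : ℕ}

/-- all circuits that arise by fixing the outputs of the other gates -/
theorem all_prog (C : Circuit V s) (M : List (Fin s → Bool)) :
    ∃ L, MonoProg (M.length * C.size) L ∧ ∀ c ∈ M, ∀ i, (fun x => C.valFix c x i) ∈ L := by
  induction M with
  | nil =>
    refine ⟨[], by simpa using MonoProg.nil, fun c hc => absurd hc List.not_mem_nil⟩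
  | cons c M ih =>
    obtain ⟨L, h1, h2⟩ := ih
    obtain ⟨L', h3, h4⟩ := C.valFix_prog c
    refine ⟨L' ++ L, ?_, ?_⟩
    · have e : (c :: M).length * C.size = C.size + M.length * C.size := by
        rw [List.length_cons]; ring
      rw [e]
      exact h3.append h1
    · intro c' hc' i
      rcases List.mem_cons.1 hc' with rfl | hc'
      · exact List.mem_append_left _ (h4 i)
      · exact List.mem_append_right _ (h2 c' hc' i)

end Circuit

end Pool.Agent.H.MP_8a52c3_lc
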