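import Pool.Agent.H.MP_8a52c3_lc.Chain

/-!
# The chain theorem
-/

set_option autoImplicit false

open Finset

namespace Pool.Agent.H.MP_8a52c3_lc

namespace Circuit

variable {V : Type} {s : ℕ}

/-- the total fan-in of the other gates of level at most `k` -/
def relFan (C : Circuit V s) (k : ℕ) : ℕ := ∑ i ∈ univ.filter (fun i => C.lev i ≤ k), (C.gate i).fan

theorem relFan_le (C : Circuit V s) (k : ℕ) : C.relFan k ≤ C.otherFan :=
  Finset.sum_le_sum_of_subset (Finset.filter_subset _ _)

theorem relFan_zero (C : Circuit V s) : C.relFan 0 = 0 := by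
  apply Finset.sum_eq_zero
  intro i hi
  have hi' := (Finset.mem_filter.1 hi).2
  cases hg : C.gate i with
  | var v => rfl
  | const b => rfl
  | and a b => rfl
  | or a b => rfl
  | other m a g =>
    rw [lev, hg] at hi'
    simp only at hi'
    omega

/-- the test defined by an input `x` -/
noncomputable def testFun (C : Circuit V s) (k : ℕ) (x : V → Bool) : (V → Bool) → Bool :=
  fun y => (C.test k (fun i => C.val x i) (fun i r => !(C.inp x i r))).any (fun f => f y)

theorem testFun_prog (C : Circuit V s) (k : ℕ) (x : V → Bool) :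
    ∃ t L, MonoProg t L ∧ t ≤ C.size + C.relFan k + 1 ∧ C.testFun k x ∈ L := by
  obtain ⟨L, h1, h2⟩ := C.valFix_prog (fun i => C.val x i)
  obtain ⟨L', h3, -, h5⟩ := h1.any (C.test k (fun i => C.val x i) (fun i r => !(C.inp x i r)))
    (by
      intro f hf
      unfold test at hf
      rcases List.mem_cons.1 hf with rfl | hf
      · exact h2 C.out
      · rw [List.mem_map] at hf
        obtain ⟨w, hw, rfl⟩ := hf
        rw [Finset.mem_toList, Finset.mem_filter, Finset.mem_sigma, Finset.mem_range] at hw
        obtain ⟨j, hj⟩ := C.inpFix_mem (fun i => C.val x i) w.1 w.2 hw.1.2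
        have : (fun y => C.inpFix (fun i => C.val x i) y w.1 w.2) =
            fun y => C.valFix (fun i => C.val x i) y j := by
          funext y
          exact hj y
        rw [this]
        exact h2 j)
  refine ⟨_, L', h3, ?_, h5⟩
  unfold test
  rw [List.length_cons, List.length_map, Finset.length_toList]
  have h6 : ∀ off : Fin s → ℕ → Bool, ((((univ.filter (fun i => C.lev i ≤ k)).sigma
      (fun i => range (C.gate i).fan)).filter
      (fun w : (Σ _ : Fin s, ℕ) => off w.1 w.2 = true)).card) ≤ C.relFan k := by
    intro off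
    refine (Finset.card_filter_le _ _).trans ?_
    rw [Finset.card_sigma, relFan]
    exact le_of_eq (Finset.sum_congr rfl (fun i _ => Finset.card_range _))
  have h7 := h6 (fun i r => !(C.inp x i r))
  exact (Nat.add_le_add_left (Nat.add_le_add_right h7 1) C.size).trans (le_of_eq (by ring))

/-- the test defined by `x` accepts `y ≥ x` if `C` accepts `y` -/
theorem testFun_true (C : Circuit V s) (k : ℕ) (hk : C.otherDepth ≤ k) {x y : V → Bool}
    (hxy : x ≤ y) (hy : C.eval y = true) : C.testFun k x y = true := by
  by_contra hcon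
  unfold testFun test at hcon
  rw [List.any_cons, Bool.or_eq_true, not_or] at hcon
  obtain ⟨h1, h2⟩ := hcon
  have h3 : ∀ i r, C.lev i ≤ k → r < (C.gate i).fan → C.inp x i r = false →
      C.inpFix (fun i => C.val x i) y i r = false := by
    intro i r hi hr hx
    by_contra hcon
    apply h2
    rw [List.any_eq_true]
    refine ⟨fun y => C.inpFix (fun i => C.val x i) y i r, ?_, by simpa using hcon⟩
    rw [List.mem_map]
    refine ⟨⟨i, r⟩, ?_, rfl⟩
    rw [Finset.mem_toList, Finset.mem_filter]
    refine ⟨Finset.mem_sigma.2 ⟨Finset.mem_filter.2 ⟨Finset.mem_univ _, hi⟩,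
      Finset.mem_range.2 hr⟩, ?_⟩
    simp only
    rw [hx]
    rfl
  -- all wires agree
  have key : ∀ n : ℕ, ∀ i : Fin s, i.val = n → C.lev i ≤ k → ∀ r, C.inp x i r = C.inp y i r := by
    intro n
    induction n using Nat.strong_induction_on with
    | _ n ih =>
      intro i hin hi r
      by_cases hr : r < (C.gate i).fan
      · have ey := C.inpFix_eq (C.lev i - 1) (fun i => C.val x i) y i r (by
          intro j hj hoth hlev
          exact C.val_eq_of_inp j hoth (ih j.val (by omega) j rfl (by omega))) (by omega)
        have ex := C.inpFix_eq (C.lev i - 1) (fun i => C.val x i) x i r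
          (fun _ _ _ _ => rfl) (by omega)
        cases hx : C.inp x i r with
        | false => rw [← ey, h3 i r hi hr hx]
        | true =>
          obtain ⟨j, hj⟩ := C.inpFix_mem (fun i => C.val x i) i r hr
          rw [hx, hj] at ex
          rw [← ey, hj, C.valFix_mono _ j hxy ex]
      · rw [C.inp_of_fan_le x i r (by omega), C.inp_of_fan_le y i r (by omega)]
  have hag : C.Agree k x y := fun i r hi => key i.val i rfl hi r
  have h4 := C.valFix_eq k (fun i => C.val x i) y C.out
    (fun j _ ho hr => hag.val_eq j ho hr) hk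
  have h5 : C.val y C.out = true := hy
  rw [h5] at h4
  exact h1 h4

/-- if the test accepts `z` and `C` rejects `z` then some wire has changed -/
theorem not_agree_of_test (C : Circuit V s) (k : ℕ) (hk : C.otherDepth ≤ k) {x z : V → Bool}
    (hz : C.eval z = false) (ht : C.testFun k x z = true) : ¬ C.Agree k x z := by
  intro hag
  unfold testFun test at ht
  rw [List.any_cons, Bool.or_eq_true] at ht
  rcases ht with h1 | h1
  · have h4 := C.valFix_eq k (fun i => C.val x i) z C.out
      (fun j _ ho hr => hag.val_eq j ho hr) hk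
    have h5 : C.val z C.out = false := hz
    rw [h5] at h4
    have h6 : C.valFix (fun i => C.val x i) z C.out = true := h1
    rw [h4] at h6
    exact absurd h6 Bool.false_ne_true
  · rw [List.any_eq_true] at h1
    obtain ⟨f, hf, hfz⟩ := h1
    rw [List.mem_map] at hf
    obtain ⟨w, hw, rfl⟩ := hf
    rw [Finset.mem_toList, Finset.mem_filter, Finset.mem_sigma, Finset.mem_filter] at hw
    obtain ⟨⟨⟨-, hlev⟩, -⟩, hoff⟩ := hw
    have ez := C.inpFix_eq k (fun i => C.val x i) z w.1 w.2
      (fun j _ ho hr => hag.val_eq j ho hr) (by omega)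
    have h6 := hag w.1 w.2 hlev
    have h7 : C.inpFix (fun i => C.val x i) z w.1 w.2 = true := hfz
    rw [ez, ← h6] at h7
    have h8 : (!(C.inp x w.1 w.2)) = true := hoff
    rw [h7] at h8
    exact absurd h8 (by decide)

end Circuit

/-- averaging over one coordinate -/
theorem sum_update {K : ℕ} {Q : Type} [Fintype Q] (j : Fin K) (g : (Fin K → Q) → ℕ) :
    ∑ u : Fin K → Q, ∑ v : Q, g (Function.update u j v) =
      Fintype.card Q * ∑ u : Fin K → Q, g u := by
  have h1 : ∑ u : Fin K → Q, ∑ v : Q, g (Function.update u j v) =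
      ∑ p : (Fin K → Q) × Q, g (Function.update p.1 j p.2) := by
    rw [Fintype.sum_prod_type]
  have h2 : ∑ p : (Fin K → Q) × Q, g (Function.update p.1 j p.2) =
      ∑ p : (Fin K → Q) × Q, g p.1 := by
    refine Finset.sum_bij' (fun p _ => (Function.update p.1 j p.2, p.1 j))
      (fun p _ => (Function.update p.1 j p.2, p.1 j)) (fun _ _ => Finset.mem_univ _)
      (fun _ _ => Finset.mem_univ _) ?_ ?_ ?_
    · intro p _
      simp
    · intro p _
      simp
    · intro p _
      rfl
  rw [h1, h2, Fintype.sum_prod_type]
  have h3 : ∀ u : Fin K → Q, ∑ _v : Q, g u = Fintype.card Q * g u := by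
    intro u
    rw [Finset.sum_const, smul_eq_mul, Finset.card_univ]
  rw [Finset.sum_congr rfl (fun u _ => h3 u), ← Finset.mul_sum]

/-- The counting behind the chain theorem. -/
theorem chain_count {K : ℕ} {Q : Type} [Fintype Q] [Nonempty Q]
    (ch : Fin K → (Fin K → Q) → Prop) [∀ j u, Decidable (ch j u)] (B : ℕ)
    (hstep : ∀ (j : Fin K) (u : Fin K → Q),
      Fintype.card Q ≤ 2 * (univ.filter (fun v : Q => ch j (Function.update u j v))).card)
    (hB : ∀ u : Fin K → Q, (univ.filter (fun j : Fin K => ch j u)).card ≤ B) :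
    K ≤ 2 * B := by
  have hQ : 0 < Fintype.card Q := Fintype.card_pos
  set N := Fintype.card (Fin K → Q) with hN
  have hNpos : 0 < N := Fintype.card_pos
  have h1 : ∀ j : Fin K, N ≤ 2 * ∑ u : Fin K → Q, (if ch j u then 1 else 0) := by
    intro j
    have h2 := sum_update j (fun u : Fin K → Q => if ch j u then 1 else 0)
    have h3 : N * Fintype.card Q ≤ 2 * (Fintype.card Q *
        ∑ u : Fin K → Q, (if ch j u then 1 else 0)) := by
      rw [← h2, Finset.mul_sum]
      calc N * Fintype.card Q = ∑ _u : Fin K → Q, Fintype.card Q := by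
            rw [Finset.sum_const, smul_eq_mul, Finset.card_univ]
        _ ≤ _ := by
            apply Finset.sum_le_sum
            intro u _
            have := hstep j u
            rw [Finset.card_filter] at this
            exact this
    have h4 : Fintype.card Q * N ≤ Fintype.card Q *
        (2 * ∑ u : Fin K → Q, (if ch j u then 1 else 0)) := by
      calc _ = N * Fintype.card Q := by ring
        _ ≤ _ := h3
        _ = _ := by ring
    exact Nat.le_of_mul_le_mul_left h4 hQ
  have h5 : K * N ≤ 2 * (N * B) := by
    calc K * N = ∑ _j : Fin K, N := by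
          rw [Finset.sum_const, smul_eq_mul, Finset.card_univ, Fintype.card_fin]
      _ ≤ ∑ j : Fin K, 2 * ∑ u : Fin K → Q, (if ch j u then 1 else 0) :=
          Finset.sum_le_sum (fun j _ => h1 j)
      _ = 2 * ∑ u : Fin K → Q, ∑ j : Fin K, (if ch j u then 1 else 0) := by
          rw [← Finset.mul_sum, Finset.sum_comm]
      _ ≤ 2 * ∑ _u : Fin K → Q, B := by
          apply Nat.mul_le_mul_left
          apply Finset.sum_le_sum
          intro u _
          have := hB u
          rw [Finset.card_filter] at this
          exact this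
      _ = 2 * (N * B) := by rw [Finset.sum_const, smul_eq_mul, Finset.card_univ]
  have h6 : N * K ≤ N * (2 * B) := by
    calc N * K = K * N := by ring
      _ ≤ _ := h5
      _ = _ := by ring
  exact Nat.le_of_mul_le_mul_left h6 hNpos

open Classical in
/-- The chain theorem: a circuit that rejects a chain of inputs and accepts the inputs that branch
off at the `K` steps of the chain has many other gates, if monotone programs cannot distinguish
the branches from the next step of the chain. -/
theorem chain_bound {V : Type} {s : ℕ} (C : Circuit V s) {K : ℕ} {Q P : Type} [Fintype Q]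
    [Nonempty Q] (Z : ℕ → (Fin K → Q) → V → Bool) (Y : Fin K → (Fin K → Q) → P → V → Bool)
    (hmono : ∀ u, Monotone (fun j => Z j u))
    (hup : ∀ (j : Fin K) u v, Z j.val (Function.update u j v) = Z j.val u)
    (hZY : ∀ (j : Fin K) u a, Z j.val u ≤ Y j u a)
    (hZ0 : ∀ j u, C.eval (Z j u) = false) (hY1 : ∀ j u a, C.eval (Y j u a) = true)
    (hard : ∀ (j : Fin K) u (t : ℕ) (L : List ((V → Bool) → Bool)) (g : (V → Bool) → Bool),
      MonoProg t L → t ≤ C.size + C.relFan C.otherDepth + 1 → g ∈ L → (∀ a, g (Y j u a) = true) →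
      Fintype.card Q ≤ 2 * (univ.filter
        (fun v : Q => g (Z (j.val + 1) (Function.update u j v)) = true)).card) :
    K + 2 ≤ 2 * C.cap C.otherDepth := by
  have h1 : ∀ u : Fin K → Q, (univ.filter (fun j : Fin K =>
      ¬ C.Agree C.otherDepth (Z j.val u) (Z (j.val + 1) u))).card ≤ C.cap C.otherDepth - 1 := by
    intro u
    have h2 := C.changes_lt C.otherDepth K (fun t => Z t u) (hmono u)
    have h3 : (univ.filter (fun j : Fin K =>
        ¬ C.Agree C.otherDepth (Z j.val u) (Z (j.val + 1) u))).card ≤
        ((range K).filter (fun t => ¬ C.Agree C.otherDepth (Z t u) (Z (t + 1) u))).card := by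
      refine Finset.card_le_card_of_injOn (fun j => j.val) ?_ ?_
      · intro j hj
        have := (Finset.mem_filter.1 (Finset.mem_coe.1 hj)).2
        exact Finset.mem_coe.2 (Finset.mem_filter.2 ⟨Finset.mem_range.2 j.isLt, this⟩)
      · intro j _ j' _ h
        exact Fin.ext h
    omega
  have h2 := chain_count (fun (j : Fin K) (u : Fin K → Q) =>
    ¬ C.Agree C.otherDepth (Z j.val u) (Z (j.val + 1) u)) (C.cap C.otherDepth - 1) ?_ h1
  · have h3 := C.pot_lt_cap (Z 0 (fun _ => Classical.arbitrary Q)) C.otherDepth
    omega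
  · intro j u
    obtain ⟨t, L, hL, ht, hmem⟩ := C.testFun_prog C.otherDepth (Z j.val u)
    refine (hard j u t L _ hL ht hmem ?_).trans ?_
    · intro a
      exact C.testFun_true C.otherDepth le_rfl (hZY j u a) (hY1 j u a)
    · apply Nat.mul_le_mul_left
      apply Finset.card_le_card
      intro v hv
      rw [Finset.mem_filter] at hv ⊢
      refine ⟨Finset.mem_univ _, ?_⟩
      rw [hup]
      exact C.not_agree_of_test C.otherDepth le_rfl (hZ0 _ _) hv.2

/-- in real numbers -/
theorem bound_real {V : Type} {s : ℕ} (C : Circuit V s) {K : ℕ}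
    (h : K + 2 ≤ 2 * C.cap C.otherDepth) :
    (K : ℝ) / 2 + 1 ≤ (1 + (C.otherFan : ℝ) / C.otherDepth) ^ C.otherDepth := by
  have h1 : (K : ℝ) + 2 ≤ 2 * C.cap C.otherDepth := by exact_mod_cast h
  by_cases hk : 0 < C.otherDepth
  · have := C.cap_le C.otherDepth hk
    linarith
  · have hk0 : C.otherDepth = 0 := by omega
    rw [hk0] at h1
    have e : C.cap 0 = 1 := rfl
    rw [e] at h1
    rw [hk0, pow_zero]
    push_cast at h1
    linarith

end Pool.Agent.H.MP_8a52c3_lc
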