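import Pool.Agent.H.MP_8a52c3_lc.Sunflower

/-!
# Random colourings and plucking
-/

set_option autoImplicit false

open Finset

namespace Pool.Agent.H.MP_8a52c3_lc

section

variable {U : Type} [Fintype U] [DecidableEq U] {q : ℕ}

/-- the colouring that agrees with `d` on `D` and with `c` elsewhere -/
def mix (D : Finset U) (c d : U → Fin q) : U → Fin q := fun u => if u ∈ D then d u else c u

omit [Fintype U] in
theorem mix_mix (D : Finset U) (c d : U → Fin q) : mix D (mix D c d) (mix D d c) = c := by
  funext u
  by_cases hu : u ∈ D <;> simp [mix, hu]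

/-- resampling the colours in `D` -/
theorem resample (D : Finset U) (P E : (U → Fin q) → Prop) [DecidablePred P] [DecidablePred E]
    (hP : ∀ c d, P (mix D c d) ↔ P c)
    (hE : ∀ c, P c → 2 * (univ.filter (fun d => E (mix D c d))).card ≤ q ^ Fintype.card U) :
    2 * (univ.filter (fun c => P c ∧ E c)).card ≤ (univ.filter P).card := by
  have hN : Fintype.card (U → Fin q) = q ^ Fintype.card U := by simp
  have h1 : (univ.filter (fun r : (U → Fin q) × (U → Fin q) => P r.1 ∧ E r.1)).card =
      (univ.filter (fun c => P c ∧ E c)).card * q ^ Fintype.card U := by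
    have : (univ.filter (fun r : (U → Fin q) × (U → Fin q) => P r.1 ∧ E r.1)) =
        (univ.filter (fun c : U → Fin q => P c ∧ E c)) ×ˢ univ := by
      ext r
      simp
    rw [this, Finset.card_product, Finset.card_univ, hN]
  have h2 : (univ.filter (fun r : (U → Fin q) × (U → Fin q) => P r.1 ∧ E r.1)).card =
      (univ.filter (fun r : (U → Fin q) × (U → Fin q) => P r.1 ∧ E (mix D r.1 r.2))).card := by
    symm
    refine Finset.card_bij' (fun r _ => (mix D r.1 r.2, mix D r.2 r.1))
      (fun r _ => (mix D r.1 r.2, mix D r.2 r.1)) ?_ ?_ ?_ ?_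
    · intro r hr
      rw [Finset.mem_filter] at hr ⊢
      exact ⟨Finset.mem_univ _, (hP _ _).2 hr.2.1, hr.2.2⟩
    · intro r hr
      rw [Finset.mem_filter] at hr ⊢
      refine ⟨Finset.mem_univ _, (hP _ _).2 hr.2.1, ?_⟩
      simp only
      rw [mix_mix]
      exact hr.2.2
    · intro r _
      simp only [mix_mix]
    · intro r _
      simp only [mix_mix]
  have h3 : (univ.filter (fun r : (U → Fin q) × (U → Fin q) => P r.1 ∧ E (mix D r.1 r.2))).card =
      ∑ c ∈ univ.filter P, (univ.filter (fun d => E (mix D c d))).card := by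
    rw [Finset.card_filter, Fintype.sum_prod_type, Finset.sum_filter]
    refine Finset.sum_congr rfl fun c _ => ?_
    by_cases hc : P c
    · rw [if_pos hc, Finset.card_filter]
      refine Finset.sum_congr rfl fun d _ => ?_
      simp [hc]
    · simp [hc]
  have h4 : 2 * ∑ c ∈ univ.filter P, (univ.filter (fun d => E (mix D c d))).card ≤
      (univ.filter P).card * q ^ Fintype.card U := by
    rw [Finset.mul_sum]
    calc ∑ c ∈ univ.filter P, 2 * (univ.filter (fun d => E (mix D c d))).card
        ≤ ∑ _c ∈ univ.filter P, q ^ Fintype.card U :=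
          Finset.sum_le_sum (fun c hc => hE c (Finset.mem_filter.1 hc).2)
      _ = _ := by rw [Finset.sum_const, smul_eq_mul]
  rw [← h3, ← h2, h1] at h4
  by_cases h0 : 0 < q ^ Fintype.card U
  · have h5 : (2 * (univ.filter (fun c => P c ∧ E c)).card) * q ^ Fintype.card U ≤
        (univ.filter P).card * q ^ Fintype.card U := by
      calc _ = 2 * ((univ.filter (fun c => P c ∧ E c)).card * q ^ Fintype.card U) := by ring
        _ ≤ _ := h4
    exact Nat.le_of_mul_le_mul_right h5 h0
  · have h6 : (univ.filter (fun c : U → Fin q => P c ∧ E c)).card ≤ q ^ Fintype.card U := by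
      rw [← hN]
      exact Finset.card_le_univ _
    omega

theorem pair_count (u : U) (f : (U → Fin q) → Fin q)
    (hf : ∀ d i, f (Function.update d u i) = f d) :
    q * (univ.filter (fun d : U → Fin q => d u = f d)).card ≤ q ^ Fintype.card U := by
  have hN : Fintype.card (U → Fin q) = q ^ Fintype.card U := by simp
  have h1 : ((univ : Finset (Fin q)) ×ˢ
      (univ.filter (fun d : U → Fin q => d u = f d))).card ≤
      (univ : Finset (U → Fin q)).card := by
    refine Finset.card_le_card_of_injOn (fun r => Function.update r.2 u r.1)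
      (fun _ _ => Finset.mem_coe.2 (Finset.mem_univ _)) ?_
    rintro ⟨i, d⟩ hd ⟨i', d'⟩ hd' h
    simp only [Finset.coe_product, Set.mem_prod, Finset.mem_coe, Finset.mem_univ, true_and,
      Finset.mem_filter] at hd hd' h
    have h2 : i = i' := by
      have := congrFun h u
      simpa using this
    have h3 : f d = f d' := by
      have := congrArg f h
      rw [hf, hf] at this
      exact this
    have h4 : d = d' := by
      funext v
      by_cases hv : v = u
      · rw [hv, hd, hd', h3]
      · have := congrFun h v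
        simpa [Function.update_of_ne hv] using this
    rw [h2, h4]
  rw [Finset.card_product, Finset.card_univ, Finset.card_univ, hN, Fintype.card_fin] at h1
  exact h1

open Classical in
/-- A random colouring of at most `l` vertices is not injective with probability at most
`l ^ 2 / q`, even if the colours of an injectively coloured subset are kept. -/
theorem bad_count (c : U → Fin q) (Z X : Finset U) (hc : Set.InjOn c Z) (l : ℕ)
    (hX : X.card ≤ l) :
    q * (univ.filter (fun d : U → Fin q => ¬ Set.InjOn (mix (X \ Z) c d) X)).card ≤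
      l * l * q ^ Fintype.card U := by
  set D := X \ Z with hD
  have h1 : (univ.filter (fun d : U → Fin q => ¬ Set.InjOn (mix D c d) X)) ⊆
      (D ×ˢ X).biUnion (fun r => univ.filter
        (fun d : U → Fin q => r.1 ≠ r.2 ∧ d r.1 = mix D c d r.2)) := by
    intro d hd
    have hd' := (Finset.mem_filter.1 hd).2
    unfold Set.InjOn at hd'
    push Not at hd'
    obtain ⟨u, hu, v, hv, huv, hne⟩ := hd'
    rw [Finset.mem_coe] at hu hv
    by_cases huD : u ∈ D
    · refine Finset.mem_biUnion.2 ⟨(u, v), Finset.mem_product.2 ⟨huD, hv⟩,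
        Finset.mem_filter.2 ⟨Finset.mem_univ _, hne, ?_⟩⟩
      simp only
      rw [← huv]
      simp [mix, huD]
    · by_cases hvD : v ∈ D
      · refine Finset.mem_biUnion.2 ⟨(v, u), Finset.mem_product.2 ⟨hvD, hu⟩,
          Finset.mem_filter.2 ⟨Finset.mem_univ _, hne.symm, ?_⟩⟩
        simp only
        rw [huv]
        simp [mix, hvD]
      · exfalso
        have huZ : u ∈ Z := by
          by_contra h
          exact huD (Finset.mem_sdiff.2 ⟨hu, h⟩)
        have hvZ : v ∈ Z := by
          by_contra h
          exact hvD (Finset.mem_sdiff.2 ⟨hv, h⟩)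
        have h2 : c u = c v := by
          simpa [mix, huD, hvD] using huv
        exact hne (hc (Finset.mem_coe.2 huZ) (Finset.mem_coe.2 hvZ) h2)
  have h2 : ∀ r ∈ D ×ˢ X, q * (univ.filter
      (fun d : U → Fin q => r.1 ≠ r.2 ∧ d r.1 = mix D c d r.2)).card ≤ q ^ Fintype.card U := by
    intro r _
    by_cases hr : r.1 ≠ r.2
    · have h3 : (univ.filter (fun d : U → Fin q => r.1 ≠ r.2 ∧ d r.1 = mix D c d r.2)) =
          (univ.filter (fun d : U → Fin q => d r.1 = mix D c d r.2)) := by
        ext d
        simp [hr]
      rw [h3]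
      apply pair_count
      intro d i
      simp [mix, Function.update_of_ne hr.symm]
    · have h3 : (univ.filter (fun d : U → Fin q => r.1 ≠ r.2 ∧ d r.1 = mix D c d r.2)) = ∅ := by
        ext d
        simp [hr]
      rw [h3]
      simp
  have h5 := Finset.card_le_card h1
  have h6 : D.card ≤ l := (Finset.card_le_card Finset.sdiff_subset).trans hX
  calc q * (univ.filter (fun d : U → Fin q => ¬ Set.InjOn (mix D c d) X)).card
      ≤ q * ∑ r ∈ D ×ˢ X, (univ.filter
        (fun d : U → Fin q => r.1 ≠ r.2 ∧ d r.1 = mix D c d r.2)).card :=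
        Nat.mul_le_mul_left _ (h5.trans Finset.card_biUnion_le)
    _ = ∑ r ∈ D ×ˢ X, q * (univ.filter
        (fun d : U → Fin q => r.1 ≠ r.2 ∧ d r.1 = mix D c d r.2)).card := by
        rw [Finset.mul_sum]
    _ ≤ ∑ _r ∈ D ×ˢ X, q ^ Fintype.card U := Finset.sum_le_sum h2
    _ = D.card * X.card * q ^ Fintype.card U := by
        rw [Finset.sum_const, smul_eq_mul, Finset.card_product]
    _ ≤ l * l * q ^ Fintype.card U := Nat.mul_le_mul_right _ (Nat.mul_le_mul h6 hX)

open Classical in
/-- the petals of a sunflower are injectively coloured almost independently -/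
theorem petals (Z : Finset U) (l : ℕ) (hl : 1 ≤ l) (hq : 2 * (l * l) ≤ q)
    (S : Finset (Finset U)) (hS : ∀ X ∈ S, X.card ≤ l)
    (hint : ∀ X ∈ S, ∀ Y ∈ S, X ≠ Y → X ∩ Y = Z) :
    2 ^ S.card * (univ.filter (fun c : U → Fin q => Set.InjOn c Z ∧
      ∀ X ∈ S, ¬ Set.InjOn c X)).card ≤ q ^ Fintype.card U := by
  induction S using Finset.induction_on with
  | empty =>
    have hN : Fintype.card (U → Fin q) = q ^ Fintype.card U := by simp
    rw [Finset.card_empty, pow_zero, one_mul, ← hN]
    exact Finset.card_le_univ _
  | insert X S hXS ih =>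
    have ih' := ih (fun Y hY => hS Y (Finset.mem_insert_of_mem hY))
      (fun Y hY Y' hY' hne => hint Y (Finset.mem_insert_of_mem hY) Y'
        (Finset.mem_insert_of_mem hY') hne)
    have h1 := resample (X \ Z) (fun c : U → Fin q => Set.InjOn c Z ∧ ∀ Y ∈ S, ¬ Set.InjOn c Y)
      (fun c => ¬ Set.InjOn c X) ?_ ?_
    · rw [Finset.card_insert_of_notMem hXS, pow_succ]
      have h2 : (univ.filter (fun c : U → Fin q => Set.InjOn c Z ∧
          ∀ Y ∈ insert X S, ¬ Set.InjOn c Y)) =
          (univ.filter (fun c : U → Fin q => (Set.InjOn c Z ∧ ∀ Y ∈ S, ¬ Set.InjOn c Y) ∧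
            ¬ Set.InjOn c X)) := by
        ext c
        simp only [Finset.mem_filter, Finset.mem_univ, true_and, Finset.mem_insert,
          forall_eq_or_imp]
        tauto
      rw [h2]
      calc 2 ^ S.card * 2 * _ = 2 ^ S.card * (2 * _) := by ring
        _ ≤ _ := (Nat.mul_le_mul_left _ h1).trans ih'
    · intro c d
      have hmix : ∀ Y : Finset U, (∀ u ∈ Y, u ∉ X \ Z) →
          (Set.InjOn (mix (X \ Z) c d) Y ↔ Set.InjOn c Y) := by
        intro Y hY
        apply Set.EqOn.injOn_iff
        intro u hu
        simp [mix, hY u (Finset.mem_coe.1 hu)]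
      have hZ := hmix Z (fun u hu h => (Finset.mem_sdiff.1 h).2 hu)
      have hY : ∀ Y ∈ S, (Set.InjOn (mix (X \ Z) c d) Y ↔ Set.InjOn c Y) := by
        intro Y hY
        apply hmix
        intro u hu h
        have hne : Y ≠ X := fun h => hXS (h ▸ hY)
        have := hint Y (Finset.mem_insert_of_mem hY) X (Finset.mem_insert_self _ _) hne
        have h3 : u ∈ Y ∩ X := Finset.mem_inter.2 ⟨hu, (Finset.mem_sdiff.1 h).1⟩
        rw [this] at h3
        exact (Finset.mem_sdiff.1 h).2 h3
      rw [hZ]
      constructor
      · rintro ⟨h1, h2⟩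
        exact ⟨h1, fun Y hYS => (hY Y hYS).not.1 (h2 Y hYS)⟩
      · rintro ⟨h1, h2⟩
        exact ⟨h1, fun Y hYS => (hY Y hYS).not.2 (h2 Y hYS)⟩
    · intro c hc
      have h2 := bad_count c Z X hc.1 l (hS X (Finset.mem_insert_self _ _))
      have hll : 0 < l * l := Nat.mul_pos hl hl
      have h3 : 2 * (l * l) * (univ.filter (fun d : U → Fin q =>
          ¬ Set.InjOn (mix (X \ Z) c d) X)).card ≤ l * l * q ^ Fintype.card U :=
        (Nat.mul_le_mul_right _ hq).trans h2
      have h4 : (l * l) * (2 * (univ.filter (fun d : U → Fin q =>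
          ¬ Set.InjOn (mix (X \ Z) c d) X)).card) ≤ (l * l) * q ^ Fintype.card U := by
        calc _ = 2 * (l * l) * (univ.filter (fun d : U → Fin q =>
          ¬ Set.InjOn (mix (X \ Z) c d) X)).card := by ring
          _ ≤ _ := h3
      exact Nat.le_of_mul_le_mul_left h4 hll

open Classical in
/-- plucking -/
theorem pluck (l p : ℕ) (hl : 1 ≤ l) (hp : 2 ≤ p) (hq : 2 * (l * l) ≤ q) (n : ℕ) :
    ∀ H : Finset (Finset U), H.card ≤ n → (∀ X ∈ H, X.card ≤ l) →
      ∃ H' : Finset (Finset U), H'.card ≤ (p * l) ^ l ∧ (∀ X ∈ H', X.card ≤ l) ∧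
        (∀ X ∈ H, ∃ X' ∈ H', X' ⊆ X) ∧
        2 ^ p * (univ.filter (fun c : U → Fin q => (∃ X ∈ H', Set.InjOn c X) ∧
          ¬ ∃ X ∈ H, Set.InjOn c X)).card ≤ n * q ^ Fintype.card U := by
  induction n with
  | zero =>
    intro H hH _
    have : H = ∅ := Finset.card_eq_zero.1 (Nat.le_zero.1 hH)
    subst this
    refine ⟨∅, by simp, by simp, by simp, by simp⟩
  | succ n ih =>
    intro H hH hsize
    by_cases hsmall : H.card ≤ (p * l) ^ l
    · refine ⟨H, hsmall, hsize, fun X hX => ⟨X, hX, Finset.Subset.refl _⟩, ?_⟩
      have : (univ.filter (fun c : U → Fin q => (∃ X ∈ H, Set.InjOn c X) ∧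
          ¬ ∃ X ∈ H, Set.InjOn c X)) = ∅ := by
        ext c
        simp
      rw [this]
      simp
    · push Not at hsmall
      obtain ⟨S, hSH, hScard, Z, hZ⟩ := sunflower p l hp hl l le_rfl H hsize hsmall
      have hSne : S.Nonempty := Finset.card_pos.1 (by omega)
      -- the core is contained in every petal
      have hZsub : ∀ X ∈ S, Z ⊆ X := by
        intro X hX
        obtain ⟨Y, hY, hne⟩ := Finset.exists_mem_ne (by omega : 1 < S.card) X
        rw [← hZ X hX Y hY hne.symm]
        exact Finset.inter_subset_left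
      obtain ⟨X₀, hX₀⟩ := hSne
      have hZcard : Z.card ≤ l := (Finset.card_le_card (hZsub X₀ hX₀)).trans (hsize X₀ (hSH hX₀))
      have hcard1 : (insert Z (H \ S)).card ≤ n := by
        have h1 := Finset.card_insert_le Z (H \ S)
        rw [Finset.card_sdiff_of_subset hSH] at h1
        have h2 := Finset.card_le_card hSH
        omega
      obtain ⟨H', h1, h2, h3, h4⟩ := ih (insert Z (H \ S)) hcard1 (by
        intro X hX
        rcases Finset.mem_insert.1 hX with rfl | hX
        · exact hZcard
        · exact hsize X (Finset.mem_sdiff.1 hX).1)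
      refine ⟨H', h1, h2, ?_, ?_⟩
      · intro X hX
        by_cases hXS : X ∈ S
        · obtain ⟨X', hX', hsub⟩ := h3 Z (Finset.mem_insert_self _ _)
          exact ⟨X', hX', hsub.trans (hZsub X hXS)⟩
        · exact h3 X (Finset.mem_insert_of_mem (Finset.mem_sdiff.2 ⟨hX, hXS⟩))
      · have h5 := petals Z l hl hq S (fun X hX => hsize X (hSH hX)) hZ
        rw [hScard] at h5
        have h6 : (univ.filter (fun c : U → Fin q => (∃ X ∈ H', Set.InjOn c X) ∧
            ¬ ∃ X ∈ H, Set.InjOn c X)) ⊆
            (univ.filter (fun c : U → Fin q => (∃ X ∈ H', Set.InjOn c X) ∧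
              ¬ ∃ X ∈ insert Z (H \ S), Set.InjOn c X)) ∪
            (univ.filter (fun c : U → Fin q => Set.InjOn c Z ∧
              ∀ X ∈ S, ¬ Set.InjOn c X)) := by
          intro c hc
          obtain ⟨-, hc1, hc2⟩ := Finset.mem_filter.1 hc
          push Not at hc2
          by_cases hcZ : Set.InjOn c Z
          · exact Finset.mem_union_right _ (Finset.mem_filter.2
              ⟨Finset.mem_univ _, hcZ, fun X hX => hc2 X (hSH hX)⟩)
          · refine Finset.mem_union_left _ (Finset.mem_filter.2
              ⟨Finset.mem_univ _, hc1, ?_⟩)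
            rintro ⟨X, hX, hcX⟩
            rcases Finset.mem_insert.1 hX with rfl | hX
            · exact hcZ hcX
            · exact hc2 X (Finset.mem_sdiff.1 hX).1 hcX
        have h7 := (Finset.card_le_card h6).trans (Finset.card_union_le _ _)
        calc _ ≤ 2 ^ p * (_ + _) := Nat.mul_le_mul_left _ h7
          _ = 2 ^ p * _ + 2 ^ p * _ := by rw [mul_add]
          _ ≤ n * q ^ Fintype.card U + q ^ Fintype.card U := Nat.add_le_add h4 h5
          _ = (n + 1) * q ^ Fintype.card U := by ring

end

/-- the number of transversals containing a given set -/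
theorem trans_count {k b : ℕ} (X : Finset (Fin k × Fin b)) :
    b ^ X.card * (univ.filter (fun a : Fin k → Fin b => ∀ u ∈ X, a u.1 = u.2)).card ≤ b ^ k := by
  classical
  induction X using Finset.induction_on with
  | empty =>
    rw [Finset.card_empty, pow_zero, one_mul]
    calc _ ≤ Fintype.card (Fin k → Fin b) := Finset.card_le_univ _
      _ = b ^ k := by simp
  | insert u X hu ih =>
    rw [Finset.card_insert_of_notMem hu]
    by_cases hex : ∃ v ∈ X, v.1 = u.1
    · obtain ⟨v, hv, hvu⟩ := hex
      have h1 : (univ.filter (fun a : Fin k → Fin b => ∀ w ∈ insert u X, a w.1 = w.2)) = ∅ := by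
        ext a
        simp only [Finset.mem_filter, Finset.mem_univ, true_and, Finset.notMem_empty, iff_false]
        intro h
        have h1 := h u (Finset.mem_insert_self _ _)
        have h2 := h v (Finset.mem_insert_of_mem hv)
        rw [hvu, h1] at h2
        exact hu (by rwa [show u = v from Prod.ext hvu.symm h2])
      rw [h1]
      simp
    · push Not at hex
      have h1 : ((univ : Finset (Fin b)) ×ˢ
          (univ.filter (fun a : Fin k → Fin b => ∀ w ∈ insert u X, a w.1 = w.2))).card ≤
          (univ.filter (fun a : Fin k → Fin b => ∀ w ∈ X, a w.1 = w.2)).card := by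
        refine Finset.card_le_card_of_injOn (fun r => Function.update r.2 u.1 r.1) ?_ ?_
        · rintro ⟨i, a⟩ ha
          simp only [Finset.coe_product, Set.mem_prod, Finset.mem_coe, Finset.mem_univ, true_and,
            Finset.mem_filter] at ha ⊢
          intro w hw
          rw [Function.update_of_ne (hex w hw)]
          exact ha w (Finset.mem_insert_of_mem hw)
        · rintro ⟨i, a⟩ ha ⟨i', a'⟩ ha' h
          simp only [Finset.coe_product, Set.mem_prod, Finset.mem_coe, Finset.mem_univ, true_and,
            Finset.mem_filter] at ha ha' h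
          have h2 : i = i' := by
            have := congrFun h u.1
            simpa using this
          have h4 : a = a' := by
            funext v
            by_cases hv : v = u.1
            · rw [hv, ha u (Finset.mem_insert_self _ _), ha' u (Finset.mem_insert_self _ _)]
            · have := congrFun h v
              simpa [Function.update_of_ne hv] using this
          rw [h2, h4]
      rw [Finset.card_product, Finset.card_univ, Fintype.card_fin] at h1
      calc b ^ (X.card + 1) * _ = b ^ X.card * (b * _) := by ring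
        _ ≤ b ^ X.card * _ := Nat.mul_le_mul_left _ h1
        _ ≤ b ^ k := ih

end Pool.Agent.H.MP_8a52c3_lc
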