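import Pool.Agent.H.MP_8a52c3_lc.Main
import Pool.Agent.H.MP_8a52c3_lc.Clique

/-!
# Inputs composed of many small graphs
-/

set_option autoImplicit false

open Finset

namespace Pool.Agent.H.MP_8a52c3_lc

/-- the role of an input variable: a constant, or an edge of one of `K` small graphs -/
inductive Role (K k b : ℕ) : Type
  | const (v : Bool) : Role K k b
  | edge (j : Fin K) (x y : Fin k × Fin b) : Role K k b

section

variable {V : Type} {K k b q : ℕ}

/-- the input defined by the small graphs `β` -/
def fill (role : V → Role K k b) (β : Fin K → Fin k × Fin b → Fin k × Fin b → Bool) : V → Bool :=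
  fun v => match role v with
    | .const c => c
    | .edge j x y => β j x y

/-- the chain: the first `j` small graphs are complete multipartite, the others are empty -/
def chainIn (role : V → Role K k b) (j : ℕ) (u : Fin K → Fin k × Fin b → Fin q) : V → Bool :=
  fill role (fun i x y => if i.val < j then decide (u i x ≠ u i y) else false)

/-- the branches: graph `j` is a clique -/
def branchIn (role : V → Role K k b) (j : Fin K) (u : Fin K → Fin k × Fin b → Fin q)
    (a : Fin k → Fin b) : V → Bool :=
  fill role (fun i x y => if i.val < j.val then decide (u i x ≠ u i y)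
    else if i.val = j.val then decide (a x.1 = x.2 ∧ a y.1 = y.2) else false)

theorem fill_mono (role : V → Role K k b) {β β' : Fin K → Fin k × Fin b → Fin k × Fin b → Bool}
    (h : ∀ i x y, β i x y = true → β' i x y = true) : fill role β ≤ fill role β' := by
  intro v
  unfold fill
  cases role v with
  | const c => exact le_rfl
  | edge j x y => exact Bool.le_iff_imp.2 (h j x y)

/-- substitution for the variables outside of graph `j` -/
def rest (role : V → Role K k b) (j : Fin K) (u : Fin K → Fin k × Fin b → Fin q) (v : V)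
    (z : {e : (Fin k × Fin b) × (Fin k × Fin b) // e.1 ≠ e.2} → Bool) : Bool :=
  match role v with
  | .const c => c
  | .edge i x y => if i.val < j.val then decide (u i x ≠ u i y)
    else if i.val = j.val then (if h : x ≠ y then z ⟨(x, y), h⟩ else false) else false

theorem rest_cases (role : V → Role K k b) (j : Fin K) (u : Fin K → Fin k × Fin b → Fin q)
    (v : V) : (∃ w, rest role j u v = fun x => x w) ∨ ∃ c, rest role j u v = fun _ => c := by
  cases hr : role v with
  | const c =>
    right
    refine ⟨c, ?_⟩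
    funext z
    rw [rest, hr]
  | edge i x y =>
    by_cases h1 : i.val < j.val
    · right
      refine ⟨decide (u i x ≠ u i y), ?_⟩
      funext z
      rw [rest, hr]
      simp only
      rw [if_pos h1]
    · by_cases h2 : i.val = j.val
      · by_cases h3 : x ≠ y
        · left
          refine ⟨⟨(x, y), h3⟩, ?_⟩
          funext z
          rw [rest, hr]
          simp only
          rw [if_neg h1, if_pos h2, dif_pos h3]
        · right
          refine ⟨false, ?_⟩
          funext z
          rw [rest, hr]
          simp only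
          rw [if_neg h1, if_pos h2, dif_neg h3]
      · right
        refine ⟨false, ?_⟩
        funext z
        rw [rest, hr]
        simp only
        rw [if_neg h1, if_neg h2]

theorem rest_pos (role : V → Role K k b) (hrole : ∀ v j x y, role v = .edge j x y → x ≠ y)
    (j : Fin K) (u : Fin K → Fin k × Fin b → Fin q) (a : Fin k → Fin b) :
    (fun v => rest role j u v (posIn (fun e => e.val) a)) = branchIn role j u a := by
  funext v
  rw [branchIn, fill, rest]
  cases hr : role v with
  | const c => rfl
  | edge i x y =>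
    simp only
    by_cases h1 : i.val < j.val
    · rw [if_pos h1, if_pos h1]
    · by_cases h2 : i.val = j.val
      · rw [if_neg h1, if_neg h1, if_pos h2, if_pos h2, dif_pos (hrole v i x y hr)]
        rfl
      · rw [if_neg h1, if_neg h1, if_neg h2, if_neg h2]

theorem rest_neg (role : V → Role K k b) (hrole : ∀ v j x y, role v = .edge j x y → x ≠ y)
    (j : Fin K) (u : Fin K → Fin k × Fin b → Fin q) (c : Fin k × Fin b → Fin q) :
    (fun v => rest role j u v (negIn (fun e => e.val) c)) =
      chainIn role (j.val + 1) (Function.update u j c) := by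
  funext v
  rw [chainIn, fill, rest]
  cases hr : role v with
  | const c => rfl
  | edge i x y =>
    simp only
    by_cases h1 : i.val < j.val
    · have hne : i ≠ j := fun h => by rw [h] at h1; exact lt_irrefl _ h1
      rw [if_pos h1, if_pos (by omega), Function.update_of_ne hne]
    · by_cases h2 : i.val = j.val
      · have he : i = j := Fin.ext h2
        have e3 : Function.update u j c i = c := by rw [he]; exact Function.update_self ..
        rw [if_neg h1, if_pos h2, if_pos (by omega), dif_pos (hrole v i x y hr), e3]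
        rfl
      · rw [if_neg h1, if_neg h2, if_neg (by omega)]

/-- the bound in terms of `cap` -/
theorem roles_cap {s : ℕ} (C : Circuit V s) (role : V → Role K k b)
    (hrole : ∀ v j x y, role v = .edge j x y → x ≠ y) (l p T : ℕ) (hl : 2 ≤ l) (hp : 2 ≤ p)
    (hb : 0 < b) (hq : 4 * (l * l) ≤ q)
    (hT1 : T * ((p * l) ^ l * (p * l) ^ l) < b ^ (l + 1))
    (hT2 : 4 * (T * ((p * l) ^ l * (p * l) ^ l)) < 2 ^ p)
    (hsize : C.size + C.relFan C.otherDepth + 1 ≤ T)
    (hZ : ∀ j (u : Fin K → Fin k × Fin b → Fin q), C.eval (chainIn role j u) = false)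
    (hY : ∀ j (u : Fin K → Fin k × Fin b → Fin q) a, C.eval (branchIn role j u a) = true) :
    K + 2 ≤ 2 * C.cap C.otherDepth := by
  classical
  have hqpos : 0 < q := by
    have : 0 < l * l := Nat.mul_pos (by omega) (by omega)
    omega
  have : Nonempty (Fin k × Fin b → Fin q) := ⟨fun _ => ⟨0, hqpos⟩⟩
  refine chain_bound C (Q := Fin k × Fin b → Fin q) (P := Fin k → Fin b)
    (fun j u => chainIn role j u) (fun j u a => branchIn role j u a) ?_ ?_ ?_ hZ hY ?_
  · intro u j j' hjj
    apply fill_mono
    intro i x y h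
    by_cases h1 : i.val < j
    · rw [if_pos h1] at h
      rw [if_pos (lt_of_lt_of_le h1 hjj)]
      exact h
    · rw [if_neg h1] at h
      exact absurd h Bool.false_ne_true
  · intro j u v
    simp only [chainIn]
    congr 1
    funext i x y
    by_cases h1 : i.val < j.val
    · have hne : i ≠ j := fun h => by rw [h] at h1; exact lt_irrefl _ h1
      rw [Function.update_of_ne hne]
    · rw [if_neg h1, if_neg h1]
  · intro j u a
    apply fill_mono
    intro i x y h
    by_cases h1 : i.val < j.val
    · rw [if_pos h1] at h ⊢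
      exact h
    · rw [if_neg h1] at h
      exact absurd h Bool.false_ne_true
  · intro j u t L g hL ht hg hpos
    obtain ⟨L', hL', hmem⟩ := hL.subst (rest role j u) (rest_cases role j u)
    have h1 := accepts_half (q := q)
      (fun e : {e : (Fin k × Fin b) × (Fin k × Fin b) // e.1 ≠ e.2} => e.val)
      (fun e => e.2) l p T hl hp hb hq hT1 hT2 hL' (ht.trans hsize) (hmem g hg) (by
        intro a
        have := hpos a
        rw [← rest_pos role hrole j u a] at this
        exact this)
    have hN : Fintype.card (Fin k × Fin b → Fin q) = q ^ (k * b) := by simp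
    rw [hN]
    refine h1.le.trans (Nat.mul_le_mul_left _ (Finset.card_le_card ?_))
    intro c hc
    rw [Finset.mem_filter] at hc ⊢
    refine ⟨Finset.mem_univ _, ?_⟩
    have h2 := hc.2
    rw [← rest_neg role hrole j u c]
    exact h2

end

/-- numerical estimate -/
theorem pow_seven_le (l : ℕ) (hl : 64 ≤ l) : l ^ 7 ≤ 2 ^ (l - 1) := by
  induction l, hl using Nat.le_induction with
  | base => norm_num
  | succ n hn ih =>
    have h1 : n + 1 - 1 = (n - 1) + 1 := by omega
    have h2 : 10 * (n + 1) ≤ 11 * n := by omega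
    have h3 : (10 * (n + 1)) ^ 7 ≤ (11 * n) ^ 7 := Nat.pow_le_pow_left h2 7
    rw [mul_pow, mul_pow] at h3
    norm_num at h3
    have h4 : (n + 1) ^ 7 ≤ 2 * n ^ 7 := by omega
    calc (n + 1) ^ 7 ≤ 2 * n ^ 7 := h4
      _ ≤ 2 * 2 ^ (n - 1) := Nat.mul_le_mul_left _ ih
      _ = 2 ^ (n + 1 - 1) := by rw [h1, pow_succ]; ring

theorem num_bounds (l : ℕ) (hl : 64 ≤ l) :
    l ^ l * ((l ^ 2 * l) ^ l * (l ^ 2 * l) ^ l) < (l ^ 7) ^ (l + 1) ∧
      4 * (l ^ l * ((l ^ 2 * l) ^ l * (l ^ 2 * l) ^ l)) < 2 ^ (l ^ 2) := by
  have e : l ^ l * ((l ^ 2 * l) ^ l * (l ^ 2 * l) ^ l) = (l ^ 7) ^ l := by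
    rw [← mul_pow, ← mul_pow]
    congr 1
    ring
  rw [e]
  constructor
  · exact Nat.pow_lt_pow_right (Nat.one_lt_pow (by norm_num) (by omega)) (Nat.lt_succ_self l)
  · have h1 : (l ^ 7) ^ l ≤ (2 ^ (l - 1)) ^ l := Nat.pow_le_pow_left (pow_seven_le l hl) l
    have h2 : (2 ^ (l - 1)) ^ l * 2 ^ l = 2 ^ (l ^ 2) := by
      rw [← mul_pow, ← pow_succ, Nat.sub_add_cancel (by omega), ← pow_mul]
      congr 1
      ring
    have h3 : 4 < 2 ^ l := by
      calc 4 < 2 ^ 64 := by norm_num
        _ ≤ 2 ^ l := Nat.pow_le_pow_right (by norm_num) hl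
    have h4 : 0 < (2 ^ (l - 1)) ^ l := by positivity
    calc 4 * (l ^ 7) ^ l ≤ 4 * (2 ^ (l - 1)) ^ l := Nat.mul_le_mul_left _ h1
      _ = (2 ^ (l - 1)) ^ l * 4 := by ring
      _ < (2 ^ (l - 1)) ^ l * 2 ^ l := Nat.mul_lt_mul_of_pos_left h3 h4
      _ = 2 ^ (l ^ 2) := h2

/-- `cap` is at most `2 ^ I` with `I` the total fan-in of the other gates. -/
theorem cap_le_two_pow {V : Type} {s : ℕ} (C : Circuit V s) (k : ℕ) :
    C.cap k ≤ 2 ^ C.otherFan := by
  have h1 : ∀ k : ℕ, C.cap k ≤ 2 ^ ∑ j ∈ range k, (C.wires (j + 1)).card := by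
    intro k
    induction k with
    | zero => simp [Circuit.cap]
    | succ k ih =>
      rw [Finset.sum_range_succ, pow_add, Circuit.cap]
      exact Nat.mul_le_mul ih Nat.lt_two_pow_self
  exact (h1 k).trans (Nat.pow_le_pow_right (by norm_num) (C.wires_sum k))

/-- The general theorem. -/
theorem roles_main {V : Type} {s : ℕ} (C : Circuit V s) {K k b q l : ℕ} (hl : 64 ≤ l)
    (hb : l ^ 7 ≤ b) (hq : 4 * l ^ 2 ≤ q) (role : V → Role K k b)
    (hrole : ∀ v j x y, role v = .edge j x y → x ≠ y)
    (hsize : C.size + K + 1 ≤ l ^ l)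
    (hZ : ∀ j (u : Fin K → Fin k × Fin b → Fin q), C.eval (chainIn role j u) = false)
    (hY : ∀ j (u : Fin K → Fin k × Fin b → Fin q) a, C.eval (branchIn role j u a) = true) :
    (K : ℝ) / 2 + 1 ≤ 2 ^ C.otherFan ∧
      (K : ℝ) / 2 + 1 ≤ (1 + (C.otherFan : ℝ) / C.otherDepth) ^ C.otherDepth := by
  by_cases hsmall : C.relFan C.otherDepth ≤ K
  · obtain ⟨h1, h2⟩ := num_bounds l hl
    have hbl : (l ^ 7) ^ (l + 1) ≤ b ^ (l + 1) := Nat.pow_le_pow_left hb _
    have hmain := roles_cap C role hrole l (l ^ 2) (l ^ l) (by omega)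
      (by nlinarith) (lt_of_lt_of_le (by positivity) hb) (by rw [← sq]; exact hq)
      (lt_of_lt_of_le h1 hbl) h2 (by omega) hZ hY
    refine ⟨?_, bound_real C hmain⟩
    have h3 := cap_le_two_pow C C.otherDepth
    have h4 : K + 2 ≤ 2 * 2 ^ C.otherFan := by omega
    have h5 : (K : ℝ) + 2 ≤ 2 * 2 ^ C.otherFan := by exact_mod_cast h4
    linarith
  · push Not at hsmall
    have hk : 0 < C.otherDepth := by
      by_contra hcon
      have hk0 : C.otherDepth = 0 := by omega
      rw [hk0, C.relFan_zero] at hsmall
      omega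
    have h1 := C.relFan_le C.otherDepth
    have h2 : (K : ℝ) + 1 ≤ C.otherFan := by exact_mod_cast (by omega : K + 1 ≤ C.otherFan)
    have hkR : (0 : ℝ) < C.otherDepth := by exact_mod_cast hk
    have h4 := one_add_mul_le_pow (a := (C.otherFan : ℝ) / C.otherDepth)
      (by have : (0 : ℝ) ≤ (C.otherFan : ℝ) / C.otherDepth := by positivity
          linarith) C.otherDepth
    have h5 : (C.otherDepth : ℝ) * ((C.otherFan : ℝ) / C.otherDepth) = C.otherFan := by
      field_simp
    rw [h5] at h4
    have h6 : (0 : ℝ) ≤ K := Nat.cast_nonneg K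
    have h7 : (C.otherFan : ℝ) < 2 ^ C.otherFan := by
      exact_mod_cast (Nat.lt_two_pow_self : C.otherFan < 2 ^ C.otherFan)
    constructor
    · linarith
    · linarith

end Pool.Agent.H.MP_8a52c3_lc
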