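import Pool.Agent.H.MP_8a52c3_lc.Chain2

/-!
# Inputs composed of many small graphs, with exceptional chains
-/

set_option autoImplicit false

open Finset

namespace Pool.Agent.H.MP_8a52c3_lc

section

variable {V : Type} {K k b q : ℕ}

theorem chainIn_mono (role : V → Role K k b) (u : Fin K → Fin k × Fin b → Fin q) :
    Monotone (fun j => chainIn role j u) := by
  intro j j' hjj
  apply fill_mono
  intro i x y h
  by_cases h1 : i.val < j
  · rw [if_pos h1] at h
    rw [if_pos (lt_of_lt_of_le h1 hjj)]
    exact h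
  · rw [if_neg h1] at h
    exact absurd h Bool.false_ne_true

theorem chainIn_update (role : V → Role K k b) (j : Fin K) (u : Fin K → Fin k × Fin b → Fin q)
    (v : Fin k × Fin b → Fin q) :
    chainIn role j.val (Function.update u j v) = chainIn role j.val u := by
  simp only [chainIn]
  congr 1
  funext i x y
  by_cases h1 : i.val < j.val
  · have hne : i ≠ j := fun h => by rw [h] at h1; exact lt_irrefl _ h1
    rw [Function.update_of_ne hne]
  · rw [if_neg h1, if_neg h1]

theorem chainIn_le_branchIn (role : V → Role K k b) (j : Fin K)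
    (u : Fin K → Fin k × Fin b → Fin q) (a : Fin k → Fin b) :
    chainIn role j.val u ≤ branchIn role j u a := by
  apply fill_mono
  intro i x y h
  by_cases h1 : i.val < j.val
  · rw [if_pos h1] at h ⊢
    exact h
  · rw [if_neg h1] at h
    exact absurd h Bool.false_ne_true

open Classical in
theorem roles_hard (role : V → Role K k b)
    (hrole : ∀ v j x y, role v = .edge j x y → x ≠ y) {l : ℕ} (hl : 64 ≤ l) (hb : l ^ 7 ≤ b)
    (hq : 4 * l ^ 2 ≤ q) (j : Fin K) (u : Fin K → Fin k × Fin b → Fin q) {t : ℕ}
    {L : List ((V → Bool) → Bool)} {g : (V → Bool) → Bool} (hL : MonoProg t L)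
    (ht : t ≤ l ^ l) (hg : g ∈ L) (hpos : ∀ a, g (branchIn role j u a) = true) :
    Fintype.card (Fin k × Fin b → Fin q) ≤ 2 * (univ.filter
      (fun v : Fin k × Fin b → Fin q =>
        g (chainIn role (j.val + 1) (Function.update u j v)) = true)).card := by
  obtain ⟨hT1, hT2⟩ := num_bounds l hl
  have hbl : (l ^ 7) ^ (l + 1) ≤ b ^ (l + 1) := Nat.pow_le_pow_left hb _
  obtain ⟨L', hL', hmem'⟩ := hL.subst (rest role j u) (rest_cases role j u)
  have h1 := accepts_half (q := q)
    (fun e : {e : (Fin k × Fin b) × (Fin k × Fin b) // e.1 ≠ e.2} => e.val)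
    (fun e => e.2) l (l ^ 2) (l ^ l) (by omega) (by nlinarith)
    (lt_of_lt_of_le (by positivity) hb) (by rw [← sq]; exact hq)
    (lt_of_lt_of_le hT1 hbl) hT2 hL' ht (hmem' g hg) (by
      intro a
      have := hpos a
      rw [← rest_pos role hrole j u a] at this
      exact this)
  have hN : Fintype.card (Fin k × Fin b → Fin q) = q ^ (k * b) := by simp
  rw [hN]
  refine h1.le.trans (Nat.mul_le_mul_left _ (Finset.card_le_card ?_))
  intro c hc
  rw [Finset.mem_filter] at hc ⊢
  refine ⟨Finset.mem_univ _, ?_⟩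
  have h2 := hc.2
  rw [← rest_neg role hrole j u c]
  exact h2

/-- The general theorem with exceptional chains. -/
theorem roles_main_bad {s : ℕ} (C : Circuit V s) {l : ℕ} (hl : 64 ≤ l)
    (hb : l ^ 7 ≤ b) (hq : 4 * l ^ 2 ≤ q) (role : V → Role K k b)
    (hrole : ∀ v j x y, role v = .edge j x y → x ≠ y)
    (hsize : C.size + K + 1 ≤ l ^ l) (bad : Finset (Fin K → Fin k × Fin b → Fin q))
    (hbad : 4 * bad.card ≤ Fintype.card (Fin K → Fin k × Fin b → Fin q))
    (hZ : ∀ j (u : Fin K → Fin k × Fin b → Fin q), u ∉ bad → C.eval (chainIn role j u) = false)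
    (hY : ∀ j (u : Fin K → Fin k × Fin b → Fin q) a, C.eval (branchIn role j u a) = true) :
    (K : ℝ) / 4 + 1 ≤ 2 ^ C.otherFan ∧
      (K : ℝ) / 4 + 1 ≤ (1 + (C.otherFan : ℝ) / C.otherDepth) ^ C.otherDepth := by
  have hqpos : 0 < q := lt_of_lt_of_le (by positivity) hq
  have : Nonempty (Fin k × Fin b → Fin q) := ⟨fun _ => ⟨0, hqpos⟩⟩
  by_cases hsmall : C.relFan C.otherDepth ≤ K
  · have hmain := chain_bound_bad C (Q := Fin k × Fin b → Fin q) (P := Fin k → Fin b)
      (fun j u => chainIn role j u) (fun j u a => branchIn role j u a)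
      (fun u => chainIn_mono role u) (fun j u v => chainIn_update role j u v)
      (fun j u a => chainIn_le_branchIn role j u a) bad hbad hZ hY
      (fun j u t L g hL ht hg hpos =>
        roles_hard role hrole hl hb hq j u hL (by omega) hg hpos)
    constructor
    · have h3 := cap_le_two_pow C C.otherDepth
      have h4 : K + 4 ≤ 4 * 2 ^ C.otherFan := by omega
      have h5 : (K : ℝ) + 4 ≤ 4 * 2 ^ C.otherFan := by exact_mod_cast h4
      linarith
    · have h1 : (K : ℝ) + 4 ≤ 4 * C.cap C.otherDepth := by exact_mod_cast hmain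
      by_cases hk : 0 < C.otherDepth
      · have := C.cap_le C.otherDepth hk
        linarith
      · have hk0 : C.otherDepth = 0 := by omega
        rw [hk0] at h1
        have e : C.cap 0 = 1 := rfl
        rw [e] at h1
        rw [hk0, pow_zero]
        push_cast at h1
        linarith
  · push Not at hsmall
    have hk : 0 < C.otherDepth := by
      by_contra hcon
      have hk0 : C.otherDepth = 0 := by omega
      rw [hk0, C.relFan_zero] at hsmall
      omega
    have h1 := C.relFan_le C.otherDepth
    have h2 : (K : ℝ) + 1 ≤ C.otherFan := by exact_mod_cast (by omega : K + 1 ≤ C.otherFan)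
    have hkR : (0 : ℝ) < C.otherDepth := by exact_mod_cast hk
    have h4 := one_add_mul_le_pow (a := (C.otherFan : ℝ) / C.otherDepth)
      (by have : (0 : ℝ) ≤ (C.otherFan : ℝ) / C.otherDepth := by positivity
          linarith) C.otherDepth
    have h5 : (C.otherDepth : ℝ) * ((C.otherFan : ℝ) / C.otherDepth) = C.otherFan := by
      field_simp
    rw [h5] at h4
    have h6 : (0 : ℝ) ≤ K := Nat.cast_nonneg K
    have h7 : (C.otherFan : ℝ) < 2 ^ C.otherFan := by
      exact_mod_cast (Nat.lt_two_pow_self : C.otherFan < 2 ^ C.otherFan)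
    constructor
    · linarith
    · linarith

/-- The bound for the number of other gates with exceptional chains. -/
theorem others_bound_bad {s : ℕ} (C : Circuit V s) {l : ℕ} (hl : 64 ≤ l)
    (hb : l ^ 7 ≤ b) (hq : 4 * l ^ 2 ≤ q) (role : V → Role K k b)
    (hrole : ∀ v j x y, role v = .edge j x y → x ≠ y)
    (hsize : K * (C.size + 1) ≤ l ^ l) (bad : Finset (Fin K → Fin k × Fin b → Fin q))
    (hbad : 4 * bad.card ≤ Fintype.card (Fin K → Fin k × Fin b → Fin q))
    (hZ : ∀ j (u : Fin K → Fin k × Fin b → Fin q), u ∉ bad → C.eval (chainIn role j u) = false)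
    (hY : ∀ j (u : Fin K → Fin k × Fin b → Fin q) a, C.eval (branchIn role j u a) = true) :
    K ≤ 4 * (2 ^ C.numOther * (C.otherFan + 1) + 1) := by
  have hqpos : 0 < q := lt_of_lt_of_le (by positivity) hq
  have : Nonempty (Fin k × Fin b → Fin q) := ⟨fun _ => ⟨0, hqpos⟩⟩
  have hbpos : 0 < b := lt_of_lt_of_le (by positivity) hb
  have : Nonempty (Fin k → Fin b) := ⟨fun _ => ⟨0, hbpos⟩⟩
  by_contra hcon
  push Not at hcon
  have hcard := C.card_featSet
  obtain ⟨t, L, hL, ht, hmem⟩ := C.feat_mem
  have h2 : 2 ^ C.numOther ≤ K := by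
    have : 2 ^ C.numOther * 1 ≤ 2 ^ C.numOther * (C.otherFan + 1) :=
      Nat.mul_le_mul_left _ (by omega)
    omega
  have h3 : 2 ^ C.numOther * C.size ≤ K * C.size := Nat.mul_le_mul_right _ h2
  have h4 : t + C.featSet.card ≤ l ^ l := by
    rw [hcard]
    have e : K * (C.size + 1) = K * C.size + K := by ring
    omega
  have := chain_features_bad C.featSet C.feat hL hmem C.eval C.feat_det
    (Q := Fin k × Fin b → Fin q) (P := Fin k → Fin b)
    (fun j u => chainIn role j u) (fun j u a => branchIn role j u a)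
    (fun u => chainIn_mono role u) (fun j u v => chainIn_update role j u v)
    (fun j u a => chainIn_le_branchIn role j u a) bad hbad hZ hY
    (fun j u t L g hL ht hg hpos =>
      roles_hard role hrole hl hb hq j u hL (by omega) hg hpos)
  rw [hcard] at this
  omega

end

end Pool.Agent.H.MP_8a52c3_lc
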