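import Mathlib

/-!
# The sunflower lemma
-/

set_option autoImplicit false

open Finset

namespace Pool.Agent.H.MP_8a52c3_lc

/-- Sunflower lemma: more than `(p * L) ^ j` sets of size at most `j ≤ L` contain `p` sets whose
pairwise intersections coincide. -/
theorem sunflower {U : Type} [DecidableEq U] (p L : ℕ) (hp : 2 ≤ p) (hL : 1 ≤ L) (j : ℕ)
    (hj : j ≤ L) :
    ∀ H : Finset (Finset U), (∀ X ∈ H, X.card ≤ j) → (p * L) ^ j < H.card →
      ∃ S ⊆ H, S.card = p ∧ ∃ Z : Finset U, ∀ X ∈ S, ∀ Y ∈ S, X ≠ Y → X ∩ Y = Z := by
  classical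
  induction j with
  | zero =>
    intro H hH hcard
    exfalso
    rw [pow_zero] at hcard
    obtain ⟨X, hX, Y, hY, hne⟩ := Finset.one_lt_card.1 hcard
    have h1 : X = ∅ := Finset.card_eq_zero.1 (Nat.le_zero.1 (hH X hX))
    have h2 : Y = ∅ := Finset.card_eq_zero.1 (Nat.le_zero.1 (hH Y hY))
    exact hne (h1.trans h2.symm)
  | succ j ih =>
    intro H hH hcard
    -- a maximal pairwise disjoint subfamily
    let Q : Finset (Finset (Finset U)) :=
      H.powerset.filter (fun D => ∀ X ∈ D, ∀ Y ∈ D, X ≠ Y → Disjoint X Y)
    have hQne : Q.Nonempty := ⟨∅, by simp [Q]⟩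
    obtain ⟨D, hDQ, hDmax⟩ := Finset.exists_max_image Q (fun D => D.card) hQne
    obtain ⟨hDsub, hDdisj⟩ := Finset.mem_filter.1 hDQ
    rw [Finset.mem_powerset] at hDsub
    by_cases hDp : p ≤ D.card
    · obtain ⟨S, hSD, hScard⟩ := Finset.exists_subset_card_eq hDp
      refine ⟨S, hSD.trans hDsub, hScard, ∅, ?_⟩
      intro X hX Y hY hne
      exact Finset.disjoint_iff_inter_eq_empty.1 (hDdisj X (hSD hX) Y (hSD hY) hne)
    · push Not at hDp
      -- the union of the members of `D`
      let B : Finset U := D.biUnion id
      have hBcard : B.card ≤ (p - 1) * (j + 1) := by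
        calc B.card ≤ ∑ X ∈ D, (id X).card := Finset.card_biUnion_le
          _ ≤ ∑ _X ∈ D, (j + 1) := Finset.sum_le_sum (fun X hX => hH X (hDsub hX))
          _ = D.card * (j + 1) := by rw [Finset.sum_const, smul_eq_mul]
          _ ≤ (p - 1) * (j + 1) := Nat.mul_le_mul_right _ (by omega)
      have hmeet : ∀ X ∈ H, X ≠ ∅ → ∃ x ∈ B, x ∈ X := by
        intro X hX hXne
        by_cases hXD : X ∈ D
        · obtain ⟨x, hx⟩ := Finset.nonempty_of_ne_empty hXne
          exact ⟨x, Finset.mem_biUnion.2 ⟨X, hXD, hx⟩, hx⟩
        · by_contra hcon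
          push Not at hcon
          have hdis : ∀ Y ∈ D, Disjoint X Y := by
            intro Y hY
            rw [Finset.disjoint_left]
            intro x hxX hxY
            exact hcon x (Finset.mem_biUnion.2 ⟨Y, hY, hxY⟩) hxX
          have hins : insert X D ∈ Q := by
            refine Finset.mem_filter.2 ⟨?_, ?_⟩
            · rw [Finset.mem_powerset]
              intro Y hY
              rcases Finset.mem_insert.1 hY with rfl | hY
              · exact hX
              · exact hDsub hY
            · intro Y hY Y' hY' hne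
              rcases Finset.mem_insert.1 hY with e1 | h1
              · rcases Finset.mem_insert.1 hY' with e2 | h2
                · exact absurd (e1.trans e2.symm) hne
                · rw [e1]; exact hdis Y' h2
              · rcases Finset.mem_insert.1 hY' with e2 | h2
                · rw [e2]; exact (hdis Y h1).symm
                · exact hDdisj Y h1 Y' h2 hne
          have := hDmax _ hins
          rw [Finset.card_insert_of_notMem hXD] at this
          omega
      -- one element of `B` lies in many members
      have hex : ∃ x ∈ B, (p * L) ^ j < (H.filter (fun X => x ∈ X)).card := by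
        by_contra hcon
        push Not at hcon
        have h1 : H ⊆ insert ∅ (B.biUnion (fun x => H.filter (fun X => x ∈ X))) := by
          intro X hX
          by_cases hXe : X = ∅
          · rw [hXe]; exact Finset.mem_insert_self _ _
          · obtain ⟨x, hxB, hxX⟩ := hmeet X hX hXe
            exact Finset.mem_insert_of_mem
              (Finset.mem_biUnion.2 ⟨x, hxB, Finset.mem_filter.2 ⟨hX, hxX⟩⟩)
        have h2 := Finset.card_le_card h1
        have h3 : (insert ∅ (B.biUnion (fun x => H.filter (fun X => x ∈ X)))).card ≤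
            (p - 1) * (j + 1) * (p * L) ^ j + 1 := by
          refine (Finset.card_insert_le _ _).trans (Nat.add_le_add_right ?_ 1)
          calc (B.biUnion (fun x => H.filter (fun X => x ∈ X))).card
              ≤ ∑ x ∈ B, (H.filter (fun X => x ∈ X)).card := Finset.card_biUnion_le
            _ ≤ ∑ _x ∈ B, (p * L) ^ j := Finset.sum_le_sum hcon
            _ = B.card * (p * L) ^ j := by rw [Finset.sum_const, smul_eq_mul]
            _ ≤ (p - 1) * (j + 1) * (p * L) ^ j := Nat.mul_le_mul_right _ hBcard
        have h4 : (p - 1) * (j + 1) * (p * L) ^ j + 1 ≤ (p * L) ^ (j + 1) := by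
          have h5 : 1 ≤ (p * L) ^ j := Nat.one_le_pow _ _ (by positivity)
          have h6 : (p - 1) * (j + 1) + 1 ≤ p * L := by
            obtain ⟨r, rfl⟩ : ∃ r, p = r + 1 := ⟨p - 1, by omega⟩
            have : r * (j + 1) ≤ r * L := Nat.mul_le_mul_left _ hj
            have e : r + 1 - 1 = r := by omega
            rw [e, add_mul, one_mul]
            omega
          calc (p - 1) * (j + 1) * (p * L) ^ j + 1
              ≤ (p - 1) * (j + 1) * (p * L) ^ j + (p * L) ^ j := by omega
            _ = ((p - 1) * (j + 1) + 1) * (p * L) ^ j := by ring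
            _ ≤ (p * L) * (p * L) ^ j := Nat.mul_le_mul_right _ h6
            _ = (p * L) ^ (j + 1) := by ring
        omega
      obtain ⟨x, hxB, hx⟩ := hex
      -- remove `x`
      let H' : Finset (Finset U) := (H.filter (fun X => x ∈ X)).image (fun X => X.erase x)
      have hinj : Set.InjOn (fun X : Finset U => X.erase x)
          (H.filter (fun X => x ∈ X) : Finset (Finset U)) := by
        intro X hX Y hY hXY
        have h1 := (Finset.mem_filter.1 (Finset.mem_coe.1 hX)).2
        have h2 := (Finset.mem_filter.1 (Finset.mem_coe.1 hY)).2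
        have h3 : X.erase x = Y.erase x := hXY
        rw [← Finset.insert_erase h1, ← Finset.insert_erase h2, h3]
      have hcard' : H'.card = (H.filter (fun X => x ∈ X)).card :=
        Finset.card_image_of_injOn hinj
      obtain ⟨S', hS', hS'card, Z', hZ'⟩ := ih (by omega) H' (by
        intro Y hY
        obtain ⟨X, hX, rfl⟩ := Finset.mem_image.1 hY
        obtain ⟨hXH, hxX⟩ := Finset.mem_filter.1 hX
        rw [Finset.card_erase_of_mem hxX]
        have := hH X hXH
        omega) (by rw [hcard']; exact hx)
      refine ⟨S'.image (fun Y => insert x Y), ?_, ?_, insert x Z', ?_⟩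
      · intro X hX
        obtain ⟨Y, hY, rfl⟩ := Finset.mem_image.1 hX
        obtain ⟨X1, hX1, rfl⟩ := Finset.mem_image.1 (hS' hY)
        obtain ⟨hXH, hxX⟩ := Finset.mem_filter.1 hX1
        rw [Finset.insert_erase hxX]
        exact hXH
      · rw [Finset.card_image_of_injOn, hS'card]
        intro X hX Y hY hXY
        obtain ⟨X1, hX1, rfl⟩ := Finset.mem_image.1 (hS' hX)
        obtain ⟨Y1, hY1, rfl⟩ := Finset.mem_image.1 (hS' hY)
        have h1 := (Finset.mem_filter.1 hX1).2
        have h2 := (Finset.mem_filter.1 hY1).2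
        have h3 : insert x (X1.erase x) = insert x (Y1.erase x) := hXY
        rw [Finset.insert_erase h1, Finset.insert_erase h2] at h3
        rw [h3]
      · intro X hX Y hY hne
        obtain ⟨X1, hX1, rfl⟩ := Finset.mem_image.1 hX
        obtain ⟨Y1, hY1, rfl⟩ := Finset.mem_image.1 hY
        have hne' : X1 ≠ Y1 := fun h => hne (by rw [h])
        rw [← Finset.insert_inter_distrib, hZ' X1 hX1 Y1 hY1 hne']

end Pool.Agent.H.MP_8a52c3_lc
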